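import Mathlib
import Pool.Agent.Helper816.Final1987

set_option autoImplicit false

open Finset MvPolynomial

namespace Pool.Agent.H918R3.Betti

open Pool.Agent.Helper816 Pool.Agent.Helper816.Count Pool.Agent.Helper816.Koszul
  Pool.Agent.Helper816.Phi Pool.Agent.Helper816.Reso Pool.Agent.Helper816.Minimalize
  Pool.Agent.Helper816.Cst Pool.Agent.Helper816.Rank Pool.Agent.Helper816.Aring
  Pool.Agent.Helper816.Final1987

/-- the minimal resolution of a numerical semigroup ring, with a rank estimate -/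
theorem minres (k : Type) [Field k] (n : ℕ) (g : Fin (n + 1) → ℕ) (hpos : ∀ i, 0 < g i)
    (Ap : Finset ℕ) (hAp : ∀ n, n ∈ Ap ↔ Mem g n ∧ ¬ Adj g n 0 0) :
    ∃ (h : ℕ → ℕ)
      (D' : ∀ i, (Fin (h (i + 1)) → MvPolynomial (Fin (n+1)) k) →ₗ[MvPolynomial (Fin (n+1)) k]
        (Fin (h i) → MvPolynomial (Fin (n+1)) k)),
      h 0 = 1 ∧
      (∀ v, v ∈ LinearMap.range (D' 0) ↔ ∀ a, v a ∈ RingHom.ker
          (MvPolynomial.aeval (fun i : Fin (n+1) => (Polynomial.X : Polynomial k) ^ g i))) ∧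
      (∀ i, LinearMap.range (D' (i + 1)) = LinearMap.ker (D' i)) ∧
      (∀ i, h (i + 1) + Module.finrank k (LinearMap.range (cst (DD k g Ap i))) ≤
        Fintype.card (XX n Ap (i + 1))) := by
  classical
  have h0 := hpos 0
  have h0Ap : 0 ∈ Ap := by
    rw [hAp]
    exact ⟨mem_zero, not_adj_zero hpos _ _⟩
  obtain ⟨h, x0, D', hinj, hex, hD'min, hr0, hr, hz1, hz2, hz3⟩ :=
    minimalize (k := k) g hpos (XX n Ap) (dg g Ap) (DD k g Ap)
      (fun i x y a ha => homog k i x y a ha) (DD_exact k hAp h0)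
  -- the distinguished basis element
  set z : XX n Ap 0 := (⟨0, h0Ap⟩, ⟨∅, Finset.card_empty⟩) with hz
  have hx0 : ∀ j, x0 j = z := by
    intro j
    by_contra hne
    apply hz3 j
    apply single_range k hAp
    intro h1
    apply hne
    rw [hz]
    apply Prod.ext
    · exact Subtype.ext h1
    · exact Subtype.ext (Finset.card_eq_zero.1 (x0 j).2.2)
  -- membership in the image
  have hmem : ∀ p : MvPolynomial (Fin (n + 1)) k,
      (p • (Pi.single z 1 : XX n Ap 0 → MvPolynomial (Fin (n + 1)) k)) ∈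
        LinearMap.range (DD k g Ap 0) ↔
      aeval (R := k) (fun i : Fin (n + 1) => (Polynomial.X : Polynomial k) ^ g i) p = 0 := by
    intro p
    rw [DD_zero k hAp h0, ← Reg.th_mem k (g := g)]
    have h1 : (fun a : Ap => (p • (Pi.single z 1 : XX n Ap 0 → MvPolynomial (Fin (n + 1)) k))
        (a, ⟨∅, Finset.card_empty⟩)) = Pi.single ⟨0, h0Ap⟩ p := by
      funext a
      by_cases ha : a = ⟨0, h0Ap⟩
      · rw [ha, Pi.single_eq_same, Pi.smul_apply, smul_eq_mul, hz, Pi.single_eq_same, mul_one]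
      · rw [Pi.single_eq_of_ne ha, Pi.smul_apply, smul_eq_mul, Pi.single_eq_of_ne, mul_zero]
        rw [hz]
        intro h5
        simp only [Prod.mk.injEq] at h5
        exact ha h5.1
    rw [h1, phi_single]
    have h2 : ta k hAp ⟨0, h0Ap⟩ = 1 := by
      unfold ta
      have h3 : tt k (g := g) 0 ((hAp 0).1 h0Ap).1 = 1 := by
        apply Subtype.ext
        show (Polynomial.X : Polynomial k) ^ 0 = 1
        rw [pow_zero]
      rw [h3, C_1]
    rw [h2, mul_one]
  -- there is exactly one basis element in degree zero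
  have hh0 : ∃ j0 : Fin (h 0), ∀ j, j = j0 := by
    by_contra hcon
    have hemp : IsEmpty (Fin (h 0)) := by
      constructor
      intro j0
      apply hcon
      refine ⟨j0, fun j => hinj ?_⟩
      rw [hx0, hx0]
    obtain ⟨v, hv⟩ := hz2 (Pi.single z 1)
    have h1 : incl x0 v = 0 := by
      unfold incl
      exact Finset.sum_of_isEmpty _
    rw [h1, sub_zero] at hv
    have h2 := (hmem 1).1 (by rw [one_smul]; exact hv)
    rw [map_one] at h2
    exact one_ne_zero h2
  obtain ⟨j0, hj0⟩ := hh0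
  have hincl : ∀ v : Fin (h 0) → MvPolynomial (Fin (n + 1)) k, incl x0 v =
      v j0 • (Pi.single z 1 : XX n Ap 0 → MvPolynomial (Fin (n + 1)) k) := by
    intro v
    unfold incl
    rw [Finset.sum_eq_single j0]
    · rw [hx0]
    · intro j _ hj
      exact absurd (hj0 j) hj
    · intro h5
      exact absurd (Finset.mem_univ _) h5
  refine ⟨h, D', ?_, ?_, hex, ?_⟩
  · have h1 : Fintype.card (Fin (h 0)) = 1 := Fintype.card_eq_one_iff.mpr ⟨j0, hj0⟩
    simpa using h1
  · intro v
    rw [hz1, hincl, hmem]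
    constructor
    · intro h1 a
      rw [hj0 a, RingHom.mem_ker]
      exact h1
    · intro h1
      exact h1 j0
  · intro i
    have := hr i
    omega

/-- The top Betti number of a Gorenstein numerical semigroup ring. -/
theorem top_le (k : Type) [Field k] (c : ℕ) (g : Fin (c + 1 + 1) → ℕ) (hpos : ∀ i, 0 < g i)
    (F : ℤ) (hsym : ∀ z : ℤ, (∃ n, Mem g n ∧ (n : ℤ) = z) ↔ ¬ ∃ n, Mem g n ∧ (n : ℤ) = F - z)
    (Ap : Finset ℕ) (hAp : ∀ n, n ∈ Ap ↔ Mem g n ∧ ¬ Adj g n 0 0) :
    Fintype.card (XX (c + 1) Ap (c + 1)) ≤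
      Module.finrank k (LinearMap.range (cst (DD k g Ap c))) + 1 := by
  classical
  have hu : (Finset.univ : Finset (Fin (c + 1))).card = c + 1 := by simp
  -- every element of `XX` of top degree is `(a, univ)`
  have huniv : ∀ F : {F : Finset (Fin (c + 1)) // F.card = c + 1}, F = ⟨Finset.univ, hu⟩ := by
    rintro ⟨F, hF⟩
    apply Subtype.ext
    exact (Finset.card_eq_iff_eq_univ F).mp (by rw [hF]; simp)
  let J : Type := {x : XX (c + 1) Ap (c + 1) // (x.1.1 : ℤ) ≠ F + g 0}
  have hJ : Fintype.card (XX (c + 1) Ap (c + 1)) ≤ Fintype.card J + 1 := by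
    have h1 : Fintype.card {x : XX (c + 1) Ap (c + 1) // ¬ ((x.1.1 : ℤ) ≠ F + g 0)} ≤ 1 := by
      rw [Fintype.card_le_one_iff]
      rintro ⟨⟨⟨a, ha⟩, Fa⟩, h1⟩ ⟨⟨⟨b, hb⟩, Fb⟩, h2⟩
      simp only [ne_eq, not_not] at h1 h2
      apply Subtype.ext
      apply Prod.ext
      · apply Subtype.ext
        show a = b
        omega
      · show Fa = Fb
        rw [huniv Fa, huniv Fb]
    have h2 := Fintype.card_subtype_compl (fun x : XX (c + 1) Ap (c + 1) => (x.1.1 : ℤ) ≠ F + g 0)
    have h3 := Fintype.card_subtype_le (fun x : XX (c + 1) Ap (c + 1) => (x.1.1 : ℤ) ≠ F + g 0)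
    have h4 : Fintype.card J =
      Fintype.card {x : XX (c + 1) Ap (c + 1) // (x.1.1 : ℤ) ≠ F + g 0} := rfl
    omega
  refine hJ.trans (Nat.add_le_add_right ?_ 1)
  refine rank_ge (cst (DD k g Ap c)) (fun x : J => x.1) Subtype.val_injective ?_
  intro v hv hδ
  funext x
  by_cases hx : (x.1.1 : ℤ) = F + g 0
  · apply hv
    rintro ⟨y, rfl⟩
    exact y.2 hx
  · -- use the symmetry
    obtain ⟨⟨a, ha⟩, Fx⟩ := x
    obtain rfl := huniv Fx
    simp only at hx
    obtain ⟨haM, haA⟩ := (hAp a).1 ha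
    have h1 : ¬ ∃ n, Mem g n ∧ (n : ℤ) = (a : ℤ) - g 0 := by
      rintro ⟨m, hm, hma⟩
      apply haA
      rw [vx_iff]
      have : m = a - g 0 := by omega
      exact ⟨by omega, by rw [← this]; exact hm⟩
    have h2 : ∃ n, Mem g n ∧ (n : ℤ) = F - ((a : ℤ) - g 0) := by
      by_contra hcon
      exact h1 ((hsym _).mpr hcon)
    obtain ⟨m, ⟨y, hym⟩, hma⟩ := h2
    have h3 : ¬ ∃ n, Mem g n ∧ (n : ℤ) = F - a := by
      have := (hsym (a : ℤ)).mp ⟨a, haM, rfl⟩
      exact this
    have hm0 : m ≠ 0 := by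
      rintro rfl
      apply hx
      push_cast at hma
      linarith
    obtain ⟨i, hi⟩ : ∃ i, 0 < y i := by
      by_contra hcon
      push Not at hcon
      apply hm0
      rw [← hym]
      unfold wt
      apply Finset.sum_eq_zero
      intro i _
      rw [Nat.le_zero.1 (hcon i), zero_mul]
    have hv1 : Adj g m i i := ⟨y, hym, hi, hi⟩
    obtain ⟨h4, h5⟩ := vx_iff.1 hv1
    have hi0 : i ≠ 0 := by
      rintro rfl
      apply h3
      exact ⟨m - g 0, h5, by push_cast [h4]; linarith⟩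
    obtain ⟨j, rfl⟩ := Fin.exists_succ_eq.2 hi0
    have hmem : a + g j.succ ∈ Ap := by
      rw [hAp]
      refine ⟨mem_add haM (mem_gen _), ?_⟩
      intro h6
      obtain ⟨h7, h8⟩ := vx_iff.1 h6
      have h9 : ¬ ∃ n, Mem g n ∧ (n : ℤ) = F - ((a + g j.succ - g 0 : ℕ) : ℤ) :=
        (hsym _).mp ⟨_, h8, rfl⟩
      apply h9
      refine ⟨m - g j.succ, h5, ?_⟩
      push_cast [h4, h7]
      linarith
    have hcard : (Finset.univ.erase j : Finset (Fin (c + 1))).card = c := by
      rw [Finset.card_erase_of_mem (Finset.mem_univ _)]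
      simp
    have h10 := congrFun hδ (⟨a + g j.succ, hmem⟩, ⟨Finset.univ.erase j, hcard⟩)
    rw [cst_DD, Finset.sum_eq_single j] at h10
    · rw [dif_pos (Finset.notMem_erase _ _), Finset.sum_eq_single (⟨a, ha⟩ : Ap)] at h10
      · rw [if_pos rfl] at h10
        rw [huniv (ins _ j _)] at h10
        rcases mul_eq_zero.1 h10 with h11 | h11
        · exact absurd h11 (ksign_ne k _)
        · exact neg_eq_zero.1 h11
      · intro b _ hb
        rw [if_neg]
        intro h12
        apply hb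
        apply Subtype.ext
        simp only at h12 ⊢
        omega
      · intro h12
        exact absurd (Finset.mem_univ _) h12
    · intro l _ hl
      rw [dif_neg]
      simp [hl]
    · intro h12
      exact absurd (Finset.mem_univ _) h12

end Pool.Agent.H918R3.Betti
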