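import Mathlib
import Pool.Agent.Helper604.NSG
import Pool.Agent.H918R3.Betti1

set_option autoImplicit false

open Finset MvPolynomial

namespace Pool.Agent.H918R3.Betti

open Pool.Agent.Helper604 Pool.Agent.Helper604.Glue
open Pool.Agent.Helper816.Count Pool.Agent.Helper816.Reso Pool.Agent.Helper816.Minimalize

/-- the sorted tuple of generators -/
def gs {e N : ℕ} (G : Good e N) : Fin e → ℕ := G.a ∘ Tuple.sort G.a

theorem gs_strictMono {e N : ℕ} (G : Good e N) : StrictMono (gs G) :=
  (Tuple.monotone_sort G.a).strictMono_of_injective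
    ((NSG.a_inj G).comp (Tuple.sort G.a).injective)

theorem gs_pos {e N : ℕ} (G : Good e N) (i : Fin e) : 0 < gs G i := G.pos _

/-- reindexing sums -/
theorem sum_gs {e N : ℕ} (G : Good e N) (c : Fin e → ℕ) :
    ∑ i, c (Tuple.sort G.a i) * gs G i = ∑ i, c i * G.a i :=
  Equiv.sum_comp (Tuple.sort G.a) (fun i => c i * G.a i)

theorem sum_gs' {e N : ℕ} (G : Good e N) (c : Fin e → ℕ) :
    ∑ i, c i * gs G i = ∑ i, c ((Tuple.sort G.a).symm i) * G.a i := by
  rw [← sum_gs G (fun i => c ((Tuple.sort G.a).symm i))]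
  simp

theorem inS_iff {e N : ℕ} (G : Good (e + 1) N) (z : ℤ) :
    InS G.a z ↔ ∃ n, Mem (gs G) n ∧ (n : ℤ) = z := by
  constructor
  · rintro ⟨c, hc⟩
    refine ⟨∑ j, c j * G.a j, ⟨fun i => c (Tuple.sort G.a i), ?_⟩, hc⟩
    unfold wt
    exact sum_gs G c
  · rintro ⟨n, ⟨x, hx⟩, hn⟩
    refine ⟨fun i => x ((Tuple.sort G.a).symm i), ?_⟩
    rw [← sum_gs' G x]
    unfold wt at hx
    rw [hx]; exact hn

theorem gs_finite {e N : ℕ} (G : Good e N) :
    ((AddSubmonoid.closure (Set.range (gs G)) : Set ℕ)ᶜ).Finite := by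
  refine (NSG.sg_num G).subset ?_
  rw [Set.compl_subset_compl]
  intro n hn
  obtain ⟨c, hc⟩ := hn
  have hc' : ∑ j, c j * G.a j = n := by exact_mod_cast hc
  rw [SetLike.mem_coe, ← hc', ← sum_gs G c]
  refine AddSubmonoid.sum_mem _ (fun i _ => ?_)
  have h1 : gs G i ∈ AddSubmonoid.closure (Set.range (gs G)) :=
    AddSubmonoid.subset_closure ⟨i, rfl⟩
  have h2 := AddSubmonoid.nsmul_mem _ h1 (c (Tuple.sort G.a i))
  rwa [smul_eq_mul] at h2

theorem gs_min {e N : ℕ} (G : Good e N) (j : Fin e) :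
    gs G j ∉ AddSubmonoid.closure (gs G '' {l | l ≠ j}) := by
  let M : AddSubmonoid ℕ :=
    { carrier := {n | ∃ c : Fin e → ℕ, c j = 0 ∧ ∑ i, c i * gs G i = n}
      zero_mem' := ⟨0, rfl, by simp⟩
      add_mem' := by
        rintro a b ⟨c, hc, hc'⟩ ⟨d, hd, hd'⟩
        refine ⟨fun i => c i + d i, by simp only [hc, hd], ?_⟩
        simp only [add_mul, Finset.sum_add_distrib]
        rw [hc', hd'] }
  have hle : AddSubmonoid.closure (gs G '' {l | l ≠ j}) ≤ M := by
    rw [AddSubmonoid.closure_le]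
    rintro _ ⟨l, hl, rfl⟩
    refine ⟨Pi.single l 1, Pi.single_eq_of_ne (Ne.symm hl) _, ?_⟩
    rw [Finset.sum_eq_single l]
    · simp
    · intro i _ hi
      rw [Pi.single_eq_of_ne hi, zero_mul]
    · intro h
      exact absurd (Finset.mem_univ _) h
  intro h
  obtain ⟨c, hc, hc'⟩ := hle h
  rw [sum_gs'] at hc'
  exact G.minl (Tuple.sort G.a j) (fun i => c ((Tuple.sort G.a).symm i)) (by simpa using hc) hc'

/-- lower bound for the number of generators of the toric ideal -/
theorem gens_ge (k : Type*) [Field k] {e N : ℕ} (G : Good e N) (s : Finset (MvPolynomial (Fin e) k))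
    (hs : Ideal.span (s : Set (MvPolynomial (Fin e) k)) = RingHom.ker
      (MvPolynomial.aeval (R := k) (fun l : Fin e => (Polynomial.X : Polynomial k) ^ gs G l))) :
    N ≤ s.card := by
  classical
  refine Rel.card_le (k := k) (σ := Fin e) (gs G) (gs_pos G)
    (G.T.map (Tuple.sort G.a).symm.toEmbedding) G.v G.vinj ?_ ?_ ?_ s hs
  · intro n u hu
    rw [sum_gs'] at hu
    rcases G.split n _ hu with h | h
    · left
      intro g hg
      have := h (Tuple.sort G.a g) (by
        intro hT
        apply hg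
        rw [Finset.mem_map]
        exact ⟨_, hT, by simp⟩)
      simpa using this
    · right
      intro g hg
      rw [Finset.mem_map] at hg
      obtain ⟨i, hi, rfl⟩ := hg
      exact h i hi
  · intro n
    obtain ⟨u, hu1, hu2⟩ := G.in1 n
    refine ⟨Finsupp.equivFunOnFinite.symm (fun g => u (Tuple.sort G.a g)), ?_, ?_⟩
    · intro g hg
      simp only [Finsupp.equivFunOnFinite_symm_apply_apply]
      apply hu1
      intro hT
      apply hg
      rw [Finset.mem_map]
      exact ⟨_, hT, by simp⟩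
    · simp only [Finsupp.equivFunOnFinite_symm_apply_apply]
      rw [sum_gs, hu2]
  · intro n
    obtain ⟨u, hu1, hu2⟩ := G.in2 n
    refine ⟨Finsupp.equivFunOnFinite.symm (fun g => u (Tuple.sort G.a g)), ?_, ?_⟩
    · intro hcon
      apply hu1
      intro i hi
      have := hcon ((Tuple.sort G.a).symm i) (by
        rw [Finset.mem_map]
        rintro ⟨j, hj, hji⟩
        have : j = i := (Tuple.sort G.a).symm.injective hji
        exact hi (this ▸ hj))
      simpa using this
    · simp only [Finsupp.equivFunOnFinite_symm_apply_apply]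
      rw [sum_gs, hu2]

/-- the upper bound for the top Betti number -/
theorem upper (k : Type) [Field k] {c N : ℕ} (G : Good (c + 1 + 1) N) :
    ∃ (r : ℕ → ℕ)
      (d : ∀ n : ℕ, Matrix (Fin (r n)) (Fin (r (n + 1))) (MvPolynomial (Fin (c + 1 + 1)) k)),
      r 0 = 1 ∧
      (∀ v : Fin (r 0) → MvPolynomial (Fin (c + 1 + 1)) k,
        v ∈ LinearMap.range (d 0).mulVecLin ↔
          ∀ a, v a ∈ RingHom.ker
            (MvPolynomial.aeval
              (fun l : Fin (c + 1 + 1) => (Polynomial.X : Polynomial k) ^ gs G l))) ∧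
      (∀ n : ℕ, LinearMap.ker (d n).mulVecLin = LinearMap.range (d (n + 1)).mulVecLin) ∧
      r (c + 1) ≤ 1 := by
  classical
  obtain ⟨Ap, hAp⟩ := exists_apery (g := gs G) (gs_pos G)
  obtain ⟨h, D', h1, h2, h3, h4⟩ := minres k (c + 1) (gs G) (gs_pos G) Ap hAp
  have h5 := top_le k c (gs G) (gs_pos G) G.F (by
    intro z
    rw [← inS_iff, ← inS_iff]
    exact G.symm z) Ap hAp
  have hM : ∀ n, (LinearMap.toMatrix' (D' n)).mulVecLin = D' n := by
    intro n
    rw [← Matrix.toLin'_apply', Matrix.toLin'_toMatrix']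
  refine ⟨h, fun n => LinearMap.toMatrix' (D' n), h1, ?_, ?_, ?_⟩
  · intro v
    rw [hM]
    exact h2 v
  · intro n
    rw [hM, hM, h3]
  · have := h4 c
    omega

/-- the lower bound for the first Betti number -/
theorem lower (k : Type) [Field k] {e N : ℕ} (G : Good e N) (r : ℕ → ℕ)
    (d : ∀ n : ℕ, Matrix (Fin (r n)) (Fin (r (n + 1))) (MvPolynomial (Fin e) k)) (hr : r 0 = 1)
    (hd : ∀ v : Fin (r 0) → MvPolynomial (Fin e) k,
        v ∈ LinearMap.range (d 0).mulVecLin ↔
          ∀ a, v a ∈ RingHom.ker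
            (MvPolynomial.aeval
              (fun l : Fin e => (Polynomial.X : Polynomial k) ^ gs G l))) : N ≤ r 1 := by
  classical
  have i0 : Fin (r 0) := ⟨0, by omega⟩
  have hi0 : ∀ i : Fin (r 0), i = i0 := by
    intro i
    apply Fin.ext
    have := i.2
    have := i0.2
    omega
  let s : Finset (MvPolynomial (Fin e) k) := Finset.univ.image (fun j : Fin (r 1) => d 0 i0 j)
  have hs : Ideal.span (s : Set (MvPolynomial (Fin e) k)) = RingHom.ker
      (MvPolynomial.aeval (R := k) (fun l : Fin e => (Polynomial.X : Polynomial k) ^ gs G l)) := by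
    apply le_antisymm
    · rw [Ideal.span_le]
      intro x hx
      simp only [s, Finset.coe_image, Finset.coe_univ, Set.image_univ, Set.mem_range] at hx
      obtain ⟨j, rfl⟩ := hx
      have h1 : (d 0).mulVecLin (Pi.single j 1) ∈ LinearMap.range (d 0).mulVecLin := ⟨_, rfl⟩
      have h2 := (hd _).mp h1 i0
      rw [Matrix.mulVecLin_apply, Matrix.mulVec_single_one] at h2
      exact h2
    · intro x hx
      have h1 : (fun _ : Fin (r 0) => x) ∈ LinearMap.range (d 0).mulVecLin :=
        (hd _).mpr (fun _ => hx)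
      obtain ⟨w, hw⟩ := h1
      have h2 := congrFun hw i0
      rw [Matrix.mulVecLin_apply, Matrix.mulVec, dotProduct] at h2
      rw [← h2]
      refine Ideal.sum_mem _ (fun j _ => ?_)
      apply Ideal.mul_mem_right
      apply Ideal.subset_span
      simp only [s, Finset.coe_image, Finset.coe_univ, Set.image_univ, Set.mem_range]
      exact ⟨j, rfl⟩
  refine (gens_ge k G s hs).trans ?_
  refine Finset.card_image_le.trans ?_
  simp

end Pool.Agent.H918R3.Betti
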