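import Mathlib

set_option autoImplicit false
open Polynomial

namespace Pool.Agent.H918R3

variable {K : Type*} [Field K]

/-- The first order operator `g ↦ Q g' + E g`. -/
noncomputable def Dop (Q E : K[X]) : K[X] →ₗ[K] K[X] where
  toFun g := Q * derivative g + E * g
  map_add' := by intro a b; simp only [derivative_add]; ring
  map_smul' := by intro c a; simp only [smul_eq_C_mul, derivative_C_mul, RingHom.id_apply]; ring

theorem Dop_apply (Q E g : K[X]) : Dop Q E g = Q * derivative g + E * g := rfl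

/-- Local injectivity at a root which is not a root of `Q`. -/
theorem local_inj_one [CharZero K] (Q E q v : K[X]) (ρ : K) (hQ : Q.eval ρ ≠ 0)
    (hq : q = (X - C ρ) * v) (hv : v.eval ρ ≠ 0) (k : ℕ) (g : K[X])
    (h : (X - C ρ) ^ k ∣ Dop Q E (q * g)) : (X - C ρ) ^ k ∣ g := by
  induction k with
  | zero => simp
  | succ k ih =>
    obtain ⟨u, rfl⟩ := ih (dvd_trans (pow_dvd_pow _ (Nat.le_succ k)) h)
    have hne : (X - C ρ) ^ k ≠ 0 := pow_ne_zero _ (X_sub_C_ne_zero ρ)
    have key : Dop Q E (q * ((X - C ρ) ^ k * u)) =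
        (X - C ρ) ^ k * (C ((k : K) + 1) * (Q * u * v)
          + (X - C ρ) * (Q * derivative (u * v) + E * (u * v))) := by
      have e1 : q * ((X - C ρ) ^ k * u) = (X - C ρ) ^ (k + 1) * (u * v) := by
        rw [hq]; ring
      rw [Dop_apply, e1, derivative_mul, derivative_X_sub_C_pow]
      simp only [Nat.add_sub_cancel, map_add, map_natCast, map_one, Nat.cast_add, Nat.cast_one]
      ring
    rw [key, pow_succ] at h
    have h2 := (mul_dvd_mul_iff_left hne).mp h
    have h3 : (X - C ρ) ∣ C ((k : K) + 1) * (Q * u * v) := by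
      have := dvd_sub h2 (dvd_mul_right (X - C ρ) (Q * derivative (u * v) + E * (u * v)))
      simpa using this
    rw [dvd_iff_isRoot, IsRoot.def] at h3
    simp only [eval_mul, eval_C] at h3
    have hk : (k : K) + 1 ≠ 0 := Nat.cast_add_one_ne_zero k
    have hu : u.eval ρ = 0 := by
      rcases mul_eq_zero.mp h3 with h4 | h4
      · exact absurd h4 hk
      · rcases mul_eq_zero.mp h4 with h5 | h5
        · rcases mul_eq_zero.mp h5 with h6 | h6
          · exact absurd h6 hQ
          · exact h6
        · exact absurd h5 hv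
    rw [pow_succ]
    exact mul_dvd_mul_left _ (dvd_iff_isRoot.mpr hu)

/-- Local injectivity at a simple root of `Q`. -/
theorem local_inj_two (Q E q Q1 : K[X]) (ρ : K) (hQ : Q = (X - C ρ) * Q1)
    (hq : q.eval ρ ≠ 0) (hE : ∀ k : ℕ, E.eval ρ + k * Q1.eval ρ ≠ 0) (k : ℕ) (g : K[X])
    (h : (X - C ρ) ^ k ∣ Dop Q E (q * g)) : (X - C ρ) ^ k ∣ g := by
  induction k with
  | zero => simp
  | succ k ih =>
    obtain ⟨u, rfl⟩ := ih (dvd_trans (pow_dvd_pow _ (Nat.le_succ k)) h)
    have hne : (X - C ρ) ^ k ≠ 0 := pow_ne_zero _ (X_sub_C_ne_zero ρ)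
    have key : Dop Q E (q * ((X - C ρ) ^ k * u)) =
        (X - C ρ) ^ k * ((C (k : K) * Q1 + E) * (q * u)
          + (X - C ρ) * (Q1 * derivative (q * u))) := by
      have e1 : q * ((X - C ρ) ^ k * u) = (X - C ρ) ^ k * (q * u) := by ring
      rw [Dop_apply, e1, derivative_mul, derivative_X_sub_C_pow, hQ]
      rcases k with _ | k
      · simp; ring
      · simp only [Nat.add_sub_cancel]
        ring
    rw [key, pow_succ] at h
    have h2 := (mul_dvd_mul_iff_left hne).mp h
    have h3 : (X - C ρ) ∣ (C (k : K) * Q1 + E) * (q * u) := by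
      have := dvd_sub h2 (dvd_mul_right (X - C ρ) (Q1 * derivative (q * u)))
      simpa using this
    rw [dvd_iff_isRoot, IsRoot.def] at h3
    simp only [eval_mul, eval_C, eval_add] at h3
    have hu : u.eval ρ = 0 := by
      rcases mul_eq_zero.mp h3 with h4 | h4
      · exact absurd (by rw [add_comm]; exact h4) (hE k)
      · rcases mul_eq_zero.mp h4 with h5 | h5
        · exact absurd h5 hq
        · exact h5
    rw [pow_succ]
    exact mul_dvd_mul_left _ (dvd_iff_isRoot.mpr hu)

/-- The commutation rule with powers of `f`. -/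
theorem Dop_mul_pow (Q E q P f g : K[X]) (hP : f * P = Q * q * derivative f) (m : ℕ) :
    Dop Q E (q * (f ^ m * g)) = f ^ m * (Dop Q E (q * g) + (m : K[X]) * (P * g)) := by
  have e1 : q * (f ^ m * g) = f ^ m * (q * g) := by ring
  rw [Dop_apply, Dop_apply, e1, derivative_mul, derivative_pow]
  rcases m with _ | m
  · simp
  · simp only [Nat.add_sub_cancel, map_natCast]
    have : f ^ (m + 1) * (((m + 1 : ℕ) : K[X]) * (P * g))
        = f ^ m * (((m + 1 : ℕ) : K[X]) * (f * P * g)) := by ring
    rw [mul_add (f ^ (m + 1)), this, hP]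
    ring

/-- Existence of a polynomial `R` with nonzero constant coefficient and `P ∣ R(f)`. -/
theorem exists_R [IsAlgClosed K] (P f : K[X]) (hP0 : P ≠ 0)
    (hP : ∀ ξ, P.eval ξ = 0 → f.eval ξ ≠ 0) :
    ∃ R : K[X], R.eval 0 ≠ 0 ∧ P ∣ R.comp f := by
  refine ⟨(P.roots.map (fun ξ => X - C (f.eval ξ))).prod, ?_, ?_⟩
  · rw [eval_multiset_prod, Multiset.map_map]
    intro h
    rw [Multiset.prod_eq_zero_iff] at h
    rw [Multiset.mem_map] at h
    obtain ⟨ξ, hξ, h2⟩ := h
    simp at h2
    exact hP ξ (by simpa [hP0] using hξ) h2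
  · rw [multiset_prod_comp, Multiset.map_map]
    have hs : P = C P.leadingCoeff * (P.roots.map (fun a => X - C a)).prod :=
      (IsAlgClosed.splits P).eq_prod_roots
    have h1 : (P.roots.map (fun a => X - C a)).prod ∣
        (P.roots.map ((fun p => p.comp f) ∘ fun ξ => X - C (f.eval ξ))).prod := by
      refine Multiset.prod_dvd_prod_of_dvd _ _ ?_
      intro a _
      simp only [Function.comp_apply, sub_comp, X_comp, C_comp]
      rw [dvd_iff_isRoot]
      simp
    have h2 : P ∣ (P.roots.map (fun a => X - C a)).prod := by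
      have hl : P.leadingCoeff ≠ 0 := leadingCoeff_ne_zero.mpr hP0
      refine ⟨C (P.leadingCoeff⁻¹), ?_⟩
      calc (P.roots.map (fun a => X - C a)).prod
          = C (P.leadingCoeff⁻¹) * (C P.leadingCoeff * (P.roots.map (fun a => X - C a)).prod) := by
            rw [← mul_assoc, ← C_mul, inv_mul_cancel₀ hl, C_1, one_mul]
        _ = C (P.leadingCoeff⁻¹) * P := by rw [← hs]
        _ = P * C (P.leadingCoeff⁻¹) := by ring
    exact h2.trans h1

end Pool.Agent.H918R3
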