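import Mathlib
import Pool.Agent.H918R3.Mathieu1

set_option autoImplicit false
open Polynomial

namespace Pool.Agent.H918R3

variable {K : Type*} [Field K]

/-- The space of `h` with `L (h f^m) = 0` for all `m ≥ n`. -/
def Usp (L : K[X] →ₗ[K] K) (f : K[X]) (n : ℕ) : Submodule K K[X] where
  carrier := {h | ∀ m, n ≤ m → L (h * f ^ m) = 0}
  add_mem' := by
    intro a b ha hb m hm
    rw [add_mul, map_add, ha m hm, hb m hm, add_zero]
  zero_mem' := by intro m _; simp
  smul_mem' := by
    intro c a ha m hm
    rw [smul_mul_assoc, map_smul, ha m hm, smul_zero]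

theorem mem_Usp (L : K[X] →ₗ[K] K) (f : K[X]) (n : ℕ) (h : K[X]) :
    h ∈ Usp L f n ↔ ∀ m, n ≤ m → L (h * f ^ m) = 0 := Iff.rfl

theorem Usp_mono (L : K[X] →ₗ[K] K) (f : K[X]) {n n' : ℕ} (h : n ≤ n') :
    Usp L f n ≤ Usp L f n' := by
  intro a ha m hm
  exact ha m (h.trans hm)

theorem Usp_comp (L : K[X] →ₗ[K] K) (f : K[X]) (n : ℕ) (h p : K[X]) (hh : h ∈ Usp L f n) :
    p.comp f * h ∈ Usp L f n := by
  induction p using Polynomial.induction_on' with
  | add p q hp hq => rw [add_comp, add_mul]; exact add_mem hp hq
  | monomial i a =>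
    intro m hm
    have : (monomial i a).comp f * h * f ^ m = a • (h * f ^ (i + m)) := by
      rw [monomial_comp, smul_eq_C_mul]; ring
    rw [this, map_smul, hh (i + m) (by omega), smul_zero]

/-- `K[x]` is finite over `K[f]`. -/
theorem finite_comp (f : K[X]) (hf : f.natDegree ≠ 0) : (compRingHom f).Finite := by
  have hft : (compRingHom f).FiniteType := by
    have h1 : ((compRingHom f).comp (C : K →+* K[X])).FiniteType := by
      have : (compRingHom f).comp (C : K →+* K[X]) = C := by
        ext a; simp
      rw [this]
      exact (RingHom.finiteType_algebraMap (A := K) (B := K[X])).mpr inferInstance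
    exact RingHom.FiniteType.of_comp_finiteType h1
  have hX : (compRingHom f).IsIntegralElem X := by
    have hl : f.leadingCoeff ≠ 0 := by
      rw [Ne, leadingCoeff_eq_zero]
      rintro rfl
      simp at hf
    refine ⟨C (C (f.leadingCoeff⁻¹)) * (f.map C - C X), ?_, ?_⟩
    · have hm : (f.map C - C X : K[X][X]).leadingCoeff = C f.leadingCoeff := by
        rw [leadingCoeff_sub_of_degree_lt, leadingCoeff_map_of_injective C_injective]
        · rw [degree_map_eq_of_injective C_injective]
          refine lt_of_le_of_lt degree_C_le ?_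
          rw [← natDegree_pos_iff_degree_pos]
          omega
      rw [Monic, leadingCoeff_mul, hm, leadingCoeff_C, ← C_mul, inv_mul_cancel₀ hl, C_1]
    · simp only [eval₂_mul, eval₂_C, eval₂_sub, eval₂_map, coe_compRingHom_apply, X_comp]
      have : eval₂ ((compRingHom f).comp C) X f = f := by
        have : (compRingHom f).comp (C : K →+* K[X]) = C := by
          ext a; simp
        rw [this, eval₂_C_X]
      rw [this, sub_self, mul_zero]
  have hint : (compRingHom f).IsIntegral := by
    intro p
    induction p using Polynomial.induction_on' with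
    | add p q hp hq => exact RingHom.IsIntegralElem.add _ hp hq
    | monomial i a =>
      rw [← C_mul_X_pow_eq_monomial]
      refine RingHom.IsIntegralElem.mul _ ?_ ?_
      · have : C a = compRingHom f (C a) := by simp
        rw [this]
        exact RingHom.isIntegralElem_map _
      · induction i with
        | zero =>
          have : (X : K[X]) ^ 0 = compRingHom f (C 1) := by simp
          rw [this]
          exact RingHom.isIntegralElem_map _
        | succ i ih =>
          rw [pow_succ]
          exact RingHom.IsIntegralElem.mul _ ih hX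
  exact RingHom.IsIntegral.to_finite hint hft

/-- A copy of `K[x]`, regarded as a module over `K[s]` through `s ↦ f`. -/
def Aux (_f : K[X]) : Type _ := K[X]

noncomputable instance (f : K[X]) : CommRing (Aux f) := inferInstanceAs (CommRing K[X])

noncomputable instance (f : K[X]) : Algebra K[X] (Aux f) :=
  RingHom.toAlgebra (show K[X] →+* Aux f from compRingHom f)

theorem Aux_smul_def (f p : K[X]) (h : Aux f) : p • h = (show Aux f from p.comp f) * h := rfl

/-- The same space, as a `K[s]`-submodule. -/
def Vsp (L : K[X] →ₗ[K] K) (f : K[X]) (n : ℕ) : Submodule K[X] (Aux f) where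
  carrier := {h : K[X] | h ∈ Usp L f n}
  add_mem' := fun {a b} ha hb => (Usp L f n).add_mem ha hb
  zero_mem' := (Usp L f n).zero_mem
  smul_mem' := fun p h hh => Usp_comp L f n h p hh

theorem exists_stab (L : K[X] →ₗ[K] K) (f : K[X]) (hf : f.natDegree ≠ 0) :
    ∃ N, 1 ≤ N ∧ Usp L f (N + 1) ≤ Usp L f N := by
  haveI : Module.Finite K[X] (Aux f) := finite_comp f hf
  haveI : IsNoetherian K[X] (Aux f) := isNoetherian_of_isNoetherianRing_of_finite K[X] (Aux f)
  obtain ⟨n, hn⟩ := monotone_stabilizes_iff_noetherian.mpr this
    ⟨Vsp L f, fun a b hab => (show Vsp L f a ≤ Vsp L f b from fun x hx => Usp_mono L f hab hx)⟩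
  refine ⟨n + 1, by omega, ?_⟩
  intro h hh
  have h1 : Vsp L f (n + 1) = Vsp L f (n + 2) := by
    have e1 := hn (n + 1) (by omega)
    have e2 := hn (n + 2) (by omega)
    exact e1.symm.trans e2
  have : (show Aux f from h) ∈ Vsp L f (n + 2) := hh
  rw [← h1] at this
  exact this

/-- Linear algebra: if `α, β : W → E` with `E` finite dimensional, `ker β ≤ ker α` and
`range β ≤ range α`, then `range β = range α`. -/
theorem range_eq_of_ker_le {W E : Type*} [AddCommGroup W] [Module K W] [AddCommGroup E]
    [Module K E] [FiniteDimensional K E] (α β : W →ₗ[K] E)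
    (hker : LinearMap.ker β ≤ LinearMap.ker α) (hr : LinearMap.range β ≤ LinearMap.range α) :
    LinearMap.range β = LinearMap.range α := by
  have e : (W ⧸ LinearMap.ker β) ≃ₗ[K] LinearMap.range β := β.quotKerEquivRange
  haveI : FiniteDimensional K (W ⧸ LinearMap.ker β) := e.symm.finiteDimensional
  have h1 : LinearMap.range ((LinearMap.ker β).liftQ α hker) = LinearMap.range α :=
    Submodule.range_liftQ _ _ _
  have h2 : Module.finrank K (LinearMap.range ((LinearMap.ker β).liftQ α hker)) ≤
      Module.finrank K (W ⧸ LinearMap.ker β) := LinearMap.finrank_range_le _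
  rw [h1, e.finrank_eq] at h2
  exact Submodule.eq_of_le_of_finrank_le hr h2

end Pool.Agent.H918R3
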