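import Mathlib
import Pool.Agent.H918R3.Mathieu1
import Pool.Agent.H918R3.Mathieu2

set_option autoImplicit false
open Polynomial

namespace Pool.Agent.H918R3

variable {K : Type*} [Field K]

/-- From local to global divisibility by `f ^ N`. -/
theorem pow_dvd_of_local [IsAlgClosed K] (f : K[X]) (hf : f ≠ 0) (N : ℕ) (g h : K[X])
    (hloc : ∀ ρ, f.eval ρ = 0 → ∀ k : ℕ, (X - C ρ) ^ k ∣ h → (X - C ρ) ^ k ∣ g)
    (hh : f ^ N ∣ h) : f ^ N ∣ g := by
  classical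
  by_cases hg : g = 0
  · rw [hg]; exact dvd_zero _
  have hfN : f ^ N ≠ 0 := pow_ne_zero _ hf
  rw [IsAlgClosed.dvd_iff_roots_le_roots hfN hg, Multiset.le_iff_count]
  intro ρ
  rw [count_roots, count_roots, le_rootMultiplicity_iff hg]
  by_cases hρ : f.eval ρ = 0
  · apply hloc ρ hρ
    exact dvd_trans ((le_rootMultiplicity_iff hfN).mp le_rfl) hh
  · have : rootMultiplicity ρ (f ^ N) = 0 := by
      apply rootMultiplicity_eq_zero
      rw [IsRoot.def, eval_pow]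
      exact pow_ne_zero _ hρ
    rw [this, pow_zero]
    exact one_dvd _

theorem main_abs [IsAlgClosed K] (Q E q P f : K[X]) (hf : f.natDegree ≠ 0)
    (hP : f * P = Q * q * derivative f)
    (hPr : ∀ ρ, f.eval ρ = 0 → P.eval ρ ≠ 0)
    (hloc : ∀ ρ, f.eval ρ = 0 → ∀ (k : ℕ) (g : K[X]),
      (X - C ρ) ^ k ∣ Dop Q E (q * g) → (X - C ρ) ^ k ∣ g)
    (L : K[X] →ₗ[K] K) (hL : ∀ g, L (Dop Q E g) = 0)
    (hfm : ∀ m : ℕ, 1 ≤ m → L (f ^ m) = 0) : L 1 = 0 := by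
  have hf0 : f ≠ 0 := by rintro rfl; simp at hf
  -- `P` is nonzero and has `R`
  have hP0 : P ≠ 0 := by
    obtain ⟨ρ, hρ⟩ := IsAlgClosed.exists_root f (by
      intro h
      exact hf (natDegree_eq_of_degree_eq_some h))
    rintro rfl
    exact hPr ρ hρ (by simp)
  obtain ⟨R, hR0, hRP⟩ := exists_R P f hP0 (fun ξ h1 h2 => hPr ξ h2 h1)
  obtain ⟨Pt, hPt⟩ := hRP
  obtain ⟨N, hN1, hN⟩ := exists_stab L f hf
  -- Bezout
  have hcop : IsCoprime R (X ^ N) := by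
    apply IsCoprime.pow_right
    rw [isCoprime_comm, irreducible_X.coprime_iff_not_dvd]
    rw [X_dvd_iff, coeff_zero_eq_eval_zero]
    exact hR0
  obtain ⟨a, b, hab⟩ := hcop
  have hab2 : a.comp f * R.comp f + b.comp f * f ^ N = 1 := by
    have := congrArg (fun p => p.comp f) hab
    simpa [mul_comp, add_comp, pow_comp] using this
  -- the operator Dh g = D (q g)
  let Dh : K[X] →ₗ[K] K[X] := (Dop Q E) ∘ₗ (LinearMap.mulLeft K q)
  have hDh : ∀ g, Dh g = Dop Q E (q * g) := fun g => rfl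
  have hLD : ∀ (g : K[X]) (m : ℕ), L (Dh g * f ^ m) = -((m : K) * L (P * g * f ^ m)) := by
    intro g m
    have h1 := hL (q * (f ^ m * g))
    rw [Dop_mul_pow Q E q P f g hP m] at h1
    have h2 : f ^ m * (Dop Q E (q * g) + (m : K[X]) * (P * g)) =
        Dh g * f ^ m + (m : K) • (P * g * f ^ m) := by
      rw [hDh, smul_eq_C_mul, map_natCast]; ring
    rw [h2, map_add, map_smul, smul_eq_mul] at h1
    exact eq_neg_of_add_eq_zero_left h1
  -- the spaces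
  let W : Submodule K K[X] := (Usp L f 1).comap (LinearMap.mulLeft K P)
  have hW : ∀ g, g ∈ W ↔ P * g ∈ Usp L f 1 := fun g => Iff.rfl
  have hDW : ∀ g ∈ W, Dh g ∈ Usp L f 1 := by
    intro g hg m hm
    rw [hLD, ((hW g).mp hg) m hm, mul_zero, neg_zero]
  have hfN : f ^ N ≠ 0 := pow_ne_zero _ hf0
  haveI : FiniteDimensional K (AdjoinRoot (f ^ N)) := (AdjoinRoot.powerBasis hfN).finite
  let π : K[X] →ₗ[K] AdjoinRoot (f ^ N) := (AdjoinRoot.mkₐ (f ^ N)).toLinearMap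
  have hπ : ∀ g, π g = 0 ↔ f ^ N ∣ g := fun g => AdjoinRoot.mk_eq_zero
  let α : W →ₗ[K] AdjoinRoot (f ^ N) := (π ∘ₗ (LinearMap.mulLeft K P)) ∘ₗ W.subtype
  let β : W →ₗ[K] AdjoinRoot (f ^ N) := (π ∘ₗ Dh) ∘ₗ W.subtype
  have hα : ∀ w : W, α w = π (P * (w : K[X])) := fun w => rfl
  have hβ : ∀ w : W, β w = π (Dh (w : K[X])) := fun w => rfl
  have hrα : ∀ h ∈ Usp L f 1, π h ∈ LinearMap.range α := by
    intro h hh
    have hmem : Pt * (a.comp f * h) ∈ W := by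
      rw [hW]
      have : P * (Pt * (a.comp f * h)) = R.comp f * (a.comp f * h) := by
        rw [hPt]; ring
      rw [this]
      exact Usp_comp L f 1 _ _ (Usp_comp L f 1 _ _ hh)
    refine ⟨⟨_, hmem⟩, ?_⟩
    rw [hα, ← sub_eq_zero, ← map_sub, hπ]
    refine ⟨-(b.comp f * h), ?_⟩
    have : P * (Pt * (a.comp f * h)) = (a.comp f * R.comp f) * h := by
      rw [hPt]; ring
    rw [this]
    have h3 : a.comp f * R.comp f = 1 - b.comp f * f ^ N := by
      rw [← hab2]; ring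
    rw [h3]; ring
  have hker : LinearMap.ker β ≤ LinearMap.ker α := by
    intro w hw
    rw [LinearMap.mem_ker, hβ, hπ] at hw
    rw [LinearMap.mem_ker, hα, hπ]
    apply Dvd.dvd.mul_left
    exact pow_dvd_of_local f hf0 N _ _ (fun ρ hρ k hk => hloc ρ hρ k _ hk) hw
  have hrange : LinearMap.range β ≤ LinearMap.range α := by
    rintro _ ⟨w, rfl⟩
    rw [hβ]
    exact hrα _ (hDW w w.2)
  have heq := range_eq_of_ker_le α β hker hrange
  have h1mem : (1 : K[X]) ∈ Usp L f 1 := by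
    intro m hm
    rw [one_mul]; exact hfm m hm
  have h1 := hrα 1 h1mem
  rw [← heq] at h1
  obtain ⟨w, hw⟩ := h1
  rw [hβ, ← sub_eq_zero, ← map_sub, hπ] at hw
  obtain ⟨c, hc⟩ := hw
  have hcU : c ∈ Usp L f (N + 1) := by
    intro m hm
    have h2 : Dh (w : K[X]) - 1 ∈ Usp L f 1 := sub_mem (hDW w w.2) h1mem
    have h3 := h2 (m - N) (by omega)
    rw [hc] at h3
    have : f ^ N * c * f ^ (m - N) = c * f ^ m := by
      have : m = N + (m - N) := by omega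
      conv_rhs => rw [this, pow_add]
      ring
    rwa [this] at h3
  have h4 := hN hcU N le_rfl
  have h5 : L (Dh (w : K[X])) = 0 := hL _
  have h6 : L (Dh (w : K[X]) - 1) = 0 := by
    rw [hc, mul_comm]; exact h4
  rw [map_sub, h5, zero_sub, neg_eq_zero] at h6
  exact h6

/-- Key lemma: `Q` has only simple roots, and at each root `ρ` of `Q` the local exponent
condition `E(ρ) + k Q'(ρ) ≠ 0` (`k = 0, 1, 2, ...`) holds. If a linear functional `L` kills the image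
of `g ↦ Q g' + E g` and all powers `f ^ m`, `m ≥ 1`, of a nonzero `f`, then `L 1 = 0`. -/
theorem key_lemma [IsAlgClosed K] [CharZero K] (Q E f : K[X]) (hf : f ≠ 0)
    (hQs : ∀ ρ, Q.eval ρ = 0 → Q.derivative.eval ρ ≠ 0)
    (hE : ∀ ρ, Q.eval ρ = 0 → ∀ k : ℕ, E.eval ρ + k * Q.derivative.eval ρ ≠ 0)
    (L : K[X] →ₗ[K] K) (hL : ∀ g, L (Dop Q E g) = 0)
    (hfm : ∀ m : ℕ, 1 ≤ m → L (f ^ m) = 0) : L 1 = 0 := by
  classical
  by_cases hdeg : f.natDegree = 0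
  · obtain ⟨c, rfl⟩ := natDegree_eq_zero.mp hdeg
    have hc : c ≠ 0 := by rintro rfl; simp at hf
    have h1 := hfm 1 le_rfl
    rw [pow_one, ← mul_one (C c), ← smul_eq_C_mul, map_smul, smul_eq_mul] at h1
    exact (mul_eq_zero.mp h1).resolve_left hc
  set S := f.roots.toFinset.filter (fun ρ => Q.eval ρ ≠ 0) with hS
  set q : K[X] := ∏ ρ ∈ S, (X - C ρ) with hq
  have hmemf : ∀ ρ, ρ ∈ f.roots.toFinset ↔ f.eval ρ = 0 := by
    intro ρ; rw [Multiset.mem_toFinset, mem_roots hf, IsRoot.def]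
  -- local structure
  have hcase1 : ∀ ρ, f.eval ρ = 0 → Q.eval ρ ≠ 0 →
      ∃ v : K[X], q = (X - C ρ) * v ∧ v.eval ρ ≠ 0 := by
    intro ρ hρ hQρ
    have hmem : ρ ∈ S := by rw [hS, Finset.mem_filter, hmemf]; exact ⟨hρ, hQρ⟩
    refine ⟨∏ σ ∈ S.erase ρ, (X - C σ), ?_, ?_⟩
    · rw [hq, Finset.mul_prod_erase S (fun σ => X - C σ) hmem]
    · rw [eval_prod, Finset.prod_ne_zero_iff]
      intro σ hσ
      rw [eval_sub, eval_X, eval_C, sub_ne_zero]
      exact (Finset.ne_of_mem_erase hσ).symm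
  have hcase2 : ∀ ρ, Q.eval ρ = 0 → q.eval ρ ≠ 0 := by
    intro ρ hQρ
    rw [hq, eval_prod, Finset.prod_ne_zero_iff]
    intro σ hσ
    rw [eval_sub, eval_X, eval_C, sub_ne_zero]
    rintro rfl
    rw [hS, Finset.mem_filter] at hσ
    exact hσ.2 hQρ
  have hQ1 : ∀ ρ, Q.eval ρ = 0 → ∃ Q1 : K[X], Q = (X - C ρ) * Q1 ∧
      Q1.eval ρ = Q.derivative.eval ρ := by
    intro ρ hQρ
    obtain ⟨Q1, hQ1⟩ := dvd_iff_isRoot.mpr hQρ
    refine ⟨Q1, hQ1, ?_⟩
    rw [hQ1]; simp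
  have hsimple : ∀ ρ, f.eval ρ = 0 → ∃ κ : K[X], Q * q = (X - C ρ) * κ ∧ κ.eval ρ ≠ 0 := by
    intro ρ hρ
    by_cases hQρ : Q.eval ρ = 0
    · obtain ⟨Q1, h1, h2⟩ := hQ1 ρ hQρ
      refine ⟨Q1 * q, ?_, ?_⟩
      · rw [← mul_assoc, ← h1]
      · rw [eval_mul, h2]
        exact mul_ne_zero (hQs ρ hQρ) (hcase2 ρ hQρ)
    · obtain ⟨v, h1, h2⟩ := hcase1 ρ hρ hQρ
      refine ⟨Q * v, ?_, ?_⟩
      · rw [h1]; ring
      · rw [eval_mul]; exact mul_ne_zero hQρ h2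
  -- factorisation of f at a root
  have hfac : ∀ ρ, f.eval ρ = 0 → ∃ (r : ℕ) (φ : K[X]), f = (X - C ρ) ^ (r + 1) * φ ∧
      φ.eval ρ ≠ 0 := by
    intro ρ hρ
    obtain ⟨φ, h1, h2⟩ := exists_eq_pow_rootMultiplicity_mul_and_not_dvd f hf ρ
    have hpos : 0 < rootMultiplicity ρ f := (rootMultiplicity_pos hf).mpr hρ
    refine ⟨rootMultiplicity ρ f - 1, φ, ?_, ?_⟩
    · rw [Nat.sub_add_cancel hpos]; exact h1
    · intro h3; exact h2 (dvd_iff_isRoot.mpr h3)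
  have hfder : ∀ ρ (r : ℕ) (φ : K[X]), f = (X - C ρ) ^ (r + 1) * φ →
      derivative f = (X - C ρ) ^ r * (C ((r : K) + 1) * φ + (X - C ρ) * derivative φ) := by
    intro ρ r φ h1
    rw [h1, derivative_mul, derivative_X_sub_C_pow]
    simp only [Nat.add_sub_cancel, map_add, map_natCast, map_one, Nat.cast_add, Nat.cast_one]
    ring
  -- f divides Q q f'
  have hdvd : f ∣ Q * q * derivative f := by
    have := pow_dvd_of_local f hf 1 (Q * q * derivative f) f ?_ (by rw [pow_one])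
    · rwa [pow_one] at this
    · intro ρ hρ k hk
      obtain ⟨r, φ, h1, h2⟩ := hfac ρ hρ
      obtain ⟨κ, h3, h4⟩ := hsimple ρ hρ
      have hk2 : k ≤ r + 1 := by
        have h5 := (le_rootMultiplicity_iff hf).mpr hk
        have h6 : rootMultiplicity ρ f = r + 1 := by
          rw [h1, rootMultiplicity_mul, rootMultiplicity_X_sub_C_pow,
            rootMultiplicity_eq_zero (p := φ) h2, add_zero]
          rw [← h1]; exact hf
        omega
      refine dvd_trans (pow_dvd_pow _ hk2) ?_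
      rw [h3, hfder ρ r φ h1]
      refine ⟨κ * (C ((r : K) + 1) * φ + (X - C ρ) * derivative φ), ?_⟩
      ring
  obtain ⟨P, hP⟩ := hdvd
  refine main_abs Q E q P f hdeg hP.symm ?_ ?_ L hL hfm
  · intro ρ hρ hPρ
    obtain ⟨r, φ, h1, h2⟩ := hfac ρ hρ
    obtain ⟨κ, h3, h4⟩ := hsimple ρ hρ
    have e1 : (X - C ρ) ^ (r + 1) * (φ * P) =
        (X - C ρ) ^ (r + 1) * (κ * (C ((r : K) + 1) * φ + (X - C ρ) * derivative φ)) := by
      have : (X - C ρ) ^ (r + 1) * (φ * P) = f * P := by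
        conv_rhs => rw [h1]
        ring
      rw [this, ← hP, h3, hfder ρ r φ h1]
      ring
    have e2 := mul_left_cancel₀ (pow_ne_zero _ (X_sub_C_ne_zero ρ)) e1
    have e3 := congrArg (fun p => p.eval ρ) e2
    simp only [eval_mul, hPρ, mul_zero, eval_add, eval_C, eval_sub, eval_X, sub_self,
      zero_mul, add_zero] at e3
    have hr : (r : K) + 1 ≠ 0 := Nat.cast_add_one_ne_zero r
    exact (mul_ne_zero h4 (mul_ne_zero hr h2)) e3.symm
  · intro ρ hρ k g hk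
    by_cases hQρ : Q.eval ρ = 0
    · obtain ⟨Q1, h1, h2⟩ := hQ1 ρ hQρ
      refine local_inj_two Q E q Q1 ρ h1 (hcase2 ρ hQρ) ?_ k g hk
      intro j
      rw [h2]; exact hE ρ hQρ j
    · obtain ⟨v, h1, h2⟩ := hcase1 ρ hρ hQρ
      exact local_inj_one Q E q v ρ hQρ h1 h2 k g hk

end Pool.Agent.H918R3
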