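import Mathlib
import Pool.Agent.H918R3.Mathieu3

set_option autoImplicit false
open Polynomial

namespace Pool.Agent.H918R3

variable {K : Type*} [Field K]

/-- The constant `1` is not in the image, by a degree count. -/
theorem one_ne_Dop [CharZero K] (Q E : K[X]) (hQ : Q.natDegree ≤ 2) (hE : E.natDegree ≤ 1)
    (h : ∀ n : ℕ, (n : K) * Q.coeff 2 + E.coeff 1 ≠ 0) (g : K[X]) : Dop Q E g ≠ 1 := by
  intro hg
  have hg0 : g ≠ 0 := by
    rintro rfl
    simp [Dop_apply] at hg
  have h1 := congrArg (fun p => p.coeff (g.natDegree + 1)) hg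
  simp only [Dop_apply, coeff_add] at h1
  have h2 : (E * g).coeff (g.natDegree + 1) = E.coeff 1 * g.coeff g.natDegree := by
    rw [add_comm]
    exact coeff_mul_add_eq_of_natDegree_le hE le_rfl
  have h3 : (Q * derivative g).coeff (g.natDegree + 1) =
      (g.natDegree : K) * Q.coeff 2 * g.coeff g.natDegree := by
    rcases Nat.eq_zero_or_pos g.natDegree with h0 | h0
    · obtain ⟨c, hc⟩ := natDegree_eq_zero.mp h0
      rw [← hc]; simp
    · have e : g.natDegree + 1 = 2 + (g.natDegree - 1) := by omega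
      rw [e, coeff_mul_add_eq_of_natDegree_le hQ (natDegree_derivative_le g), coeff_derivative]
      have e2 : g.natDegree - 1 + 1 = g.natDegree := by omega
      rw [e2]
      have e3 : ((g.natDegree - 1 : ℕ) : K) + 1 = (g.natDegree : K) := by
        rw [← Nat.cast_add_one, e2]
      rw [e3]; ring
  rw [h2, h3] at h1
  have h4 : (1 : K[X]).coeff (g.natDegree + 1) = 0 := by
    rw [coeff_one, if_neg (by omega)]
  rw [h4, ← add_mul] at h1
  have h5 : g.coeff g.natDegree ≠ 0 := leadingCoeff_ne_zero.mpr hg0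
  exact h g.natDegree ((mul_eq_zero.mp h1).resolve_right h5)

/-- If all powers `a ^ m` (`m ≥ 1`) are in the image of `g ↦ Q g' + E g` and `1` is not,
then `a = 0`. -/
theorem eq_zero_of_powers_mem [IsAlgClosed K] [CharZero K] (Q E a : K[X])
    (hQs : ∀ ρ, Q.eval ρ = 0 → Q.derivative.eval ρ ≠ 0)
    (hE : ∀ ρ, Q.eval ρ = 0 → ∀ k : ℕ, E.eval ρ + k * Q.derivative.eval ρ ≠ 0)
    (h1 : ∀ g, Dop Q E g ≠ 1)
    (ha : ∀ m : ℕ, 1 ≤ m → ∃ g, Dop Q E g = a ^ m) : a = 0 := by
  by_contra hne
  have hnot : (1 : K[X]) ∉ LinearMap.range (Dop Q E) := by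
    rintro ⟨g, hg⟩
    exact h1 g hg
  obtain ⟨L, hL1, hL2⟩ := Submodule.exists_le_ker_of_notMem hnot
  apply hL1
  refine key_lemma Q E a hne hQs hE L ?_ ?_
  · intro g
    exact hL2 (LinearMap.mem_range_self _ g)
  · intro m hm
    obtain ⟨g, hg⟩ := ha m hm
    rw [← hg]
    exact hL2 (LinearMap.mem_range_self _ g)

/-- Surjectivity of `g ↦ g' - g`. -/
theorem surj_exp (h : K[X]) : ∃ F : K[X], h = derivative F - F := by
  have key : ∀ n : ℕ, ∀ h : K[X], h.natDegree ≤ n → ∃ F : K[X], h = derivative F - F := by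
    intro n
    induction n with
    | zero =>
      intro h hh
      refine ⟨-h, ?_⟩
      have : derivative h = 0 := derivative_of_natDegree_zero (by omega)
      rw [derivative_neg, this]; ring
    | succ n ih =>
      intro h hh
      obtain ⟨F, hF⟩ := ih (derivative h) (by
        have := natDegree_derivative_le h
        omega)
      refine ⟨F - h, ?_⟩
      rw [derivative_sub]
      linear_combination hF
  exact key _ h le_rfl

/-- Surjectivity of `g ↦ (1+X) g' + (1+β) g`. -/
theorem surj_add [CharZero K] (β : K) (hβ : ∀ n : ℕ, (n : K) + 1 + β ≠ 0) (h : K[X]) :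
    ∃ g : K[X], h = (1 + X) * derivative g + C (1 + β) * g := by
  have key : ∀ p : K[X], ∃ g : K[X], p.comp (1 + X) =
      (1 + X) * derivative g + C (1 + β) * g := by
    intro p
    induction p using Polynomial.induction_on' with
    | add p q hp hq =>
      obtain ⟨g, hg⟩ := hp
      obtain ⟨g', hg'⟩ := hq
      refine ⟨g + g', ?_⟩
      rw [add_comp, hg, hg', derivative_add]; ring
    | monomial n a =>
      refine ⟨C (a * ((n : K) + 1 + β)⁻¹) * (1 + X) ^ n, ?_⟩
      rw [monomial_comp, derivative_C_mul, derivative_pow]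
      have e : derivative (1 + X : K[X]) = 1 := by simp
      rw [e]
      have e2 : C a = C (a * ((n : K) + 1 + β)⁻¹) * (C (n : K) + C (1 + β)) := by
        rw [← C_add, ← C_mul]
        congr 1
        have : (n : K) + (1 + β) = (n : K) + 1 + β := by ring
        rw [this, mul_assoc, inv_mul_cancel₀ (hβ n), mul_one]
      rw [e2]
      rcases n with _ | n
      · simp; ring
      · simp only [Nat.add_sub_cancel]
        ring
  obtain ⟨g, hg⟩ := key (h.comp (X - 1))
  refine ⟨g, ?_⟩
  rw [← hg, comp_assoc]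
  simp

/-- Surjectivity of `g ↦ (1-X) g' - (1+α) g`. -/
theorem surj_sub [CharZero K] (α : K) (hα : ∀ n : ℕ, (n : K) + 1 + α ≠ 0) (h : K[X]) :
    ∃ g : K[X], h = (1 - X) * derivative g - C (1 + α) * g := by
  have key : ∀ p : K[X], ∃ g : K[X], p.comp (1 - X) =
      (1 - X) * derivative g - C (1 + α) * g := by
    intro p
    induction p using Polynomial.induction_on' with
    | add p q hp hq =>
      obtain ⟨g, hg⟩ := hp
      obtain ⟨g', hg'⟩ := hq
      refine ⟨g + g', ?_⟩
      rw [add_comp, hg, hg', derivative_add]; ring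
    | monomial n a =>
      refine ⟨-(C (a * ((n : K) + 1 + α)⁻¹) * (1 - X) ^ n), ?_⟩
      rw [monomial_comp, derivative_neg, derivative_C_mul, derivative_pow]
      have e : derivative (1 - X : K[X]) = -1 := by simp
      rw [e]
      have e2 : C a = C (a * ((n : K) + 1 + α)⁻¹) * (C (n : K) + C (1 + α)) := by
        rw [← C_add, ← C_mul]
        congr 1
        have : (n : K) + (1 + α) = (n : K) + 1 + α := by ring
        rw [this, mul_assoc, inv_mul_cancel₀ (hα n), mul_one]
      rw [e2]
      rcases n with _ | n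
      · simp; ring
      · simp only [Nat.add_sub_cancel]
        ring
  obtain ⟨g, hg⟩ := key (h.comp (1 - X))
  refine ⟨g, ?_⟩
  rw [← hg, comp_assoc]
  simp

end Pool.Agent.H918R3
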