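import Pool.Agent.H918R3.UqDef

/-!
Basic tools for the positive part of the quantum affine algebra of type `A_1^(1)`:
universal property, torus automorphisms, left and right skew derivations, reversal.
-/

namespace Pool.Agent.H918R3.Uq

open scoped TensorProduct

section Serre

variable {K : Type*} [Field K] {q : K}

/-- q-commutation between two pairs: the Serre element is additive. -/
theorem serre_add (hq : q ≠ 0) {S : Type*} [Ring S] [Algebra K S] {x1 x2 y1 y2 : S}
    (h1 : x2 * x1 = q ^ 2 • (x1 * x2))
    (h3 : x2 * y1 = q⁻¹ ^ 2 • (y1 * x2)) (h4 : y2 * x1 = q⁻¹ ^ 2 • (x1 * y2)) :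
    serre q (x1 + x2) (y1 + y2) = serre q x1 y1 + serre q x2 y2 := by
  have h1' : ∀ z : S, x2 * (x1 * z) = q ^ 2 • (x1 * (x2 * z)) := fun z => by
    rw [← mul_assoc, h1]; simp [mul_assoc]
  have h3' : ∀ z : S, x2 * (y1 * z) = q⁻¹ ^ 2 • (y1 * (x2 * z)) := fun z => by
    rw [← mul_assoc, h3]; simp [mul_assoc]
  have h4' : ∀ z : S, y2 * (x1 * z) = q⁻¹ ^ 2 • (x1 * (y2 * z)) := fun z => by
    rw [← mul_assoc, h4]; simp [mul_assoc]
  simp only [serre, pow_succ, pow_zero, one_mul, mul_add, add_mul, mul_assoc, h1, h3, h4, h1',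
    h3', h4', mul_smul_comm, smul_mul_assoc, smul_smul, smul_add]
  match_scalars <;> field_simp <;> ring

theorem serre_smul {S : Type*} [Ring S] [Algebra K S] (s t : K) (x y : S) :
    serre q (s • x) (t • y) = (s ^ 3 * t) • serre q x y := by
  simp only [serre, smul_pow, smul_mul_smul_comm, smul_sub, smul_add, smul_smul, mul_smul_comm,
    smul_mul_assoc]
  match_scalars <;> ring

@[simp] theorem serre_zero_left {S : Type*} [Ring S] [Algebra K S] (y : S) :
    serre q 0 y = 0 := by simp [serre]

@[simp] theorem serre_zero_right {S : Type*} [Ring S] [Algebra K S] (x : S) :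
    serre q x 0 = 0 := by simp [serre]

theorem map_serre {S T : Type*} [Ring S] [Algebra K S] [Ring T] [Algebra K T] (f : S →ₐ[K] T)
    (x y : S) : f (serre q x y) = serre q (f x) (f y) := by
  simp [serre]

/-- exponents of the torus action -/
def cc (q : K) (i j : Bool) : K := if i = j then q ^ 2 else q⁻¹ ^ 2

@[simp] theorem cc_self (i : Bool) : cc q i i = q ^ 2 := by simp [cc]

@[simp] theorem cc_not (i : Bool) : cc q i (!i) = q⁻¹ ^ 2 := by simp [cc]

@[simp] theorem cc_not' (i : Bool) : cc q (!i) i = q⁻¹ ^ 2 := by simp [cc]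

theorem cc_ne_zero (hq : q ≠ 0) (i j : Bool) : cc q i j ≠ 0 := by
  unfold cc; split_ifs <;> simp [hq]

theorem serre_right (hq : q ≠ 0) {S : Type*} [Ring S] [Algebra K S] (D : Bool → S)
    (hD : ∀ j, serre q (D j) (D (!j)) = 0) (i : Bool) (N : S)
    (hN : ∀ j, N * D j = cc q i j • (D j * N)) (j : Bool) :
    serre q (D j + if j = i then N else 0) (D (!j) + if (!j) = i then N else 0) = 0 := by
  by_cases h : j = i
  · subst h
    have h2 : (!j) ≠ j := by simp
    rw [if_pos rfl, if_neg h2, serre_add hq, hD j, serre_zero_right, add_zero]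
    · simpa using hN j
    · simpa using hN (!j)
    · simp
  · have h2 : (!j) = i := by cases i <;> cases j <;> simp_all
    subst h2
    rw [if_neg h, if_pos rfl, serre_add hq, hD j, serre_zero_left, add_zero]
    · simp
    · simp
    · have := hN j
      rw [cc_not'] at this
      exact this

theorem serre_left (hq : q ≠ 0) {S : Type*} [Ring S] [Algebra K S] (D : Bool → S)
    (hD : ∀ j, serre q (D j) (D (!j)) = 0) (i : Bool) (N : S)
    (hN : ∀ j, D j * N = cc q i j • (N * D j)) (j : Bool) :
    serre q ((if j = i then N else 0) + D j) ((if (!j) = i then N else 0) + D (!j)) = 0 := by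
  by_cases h : j = i
  · subst h
    have h2 : (!j) ≠ j := by simp
    rw [if_pos rfl, if_neg h2, serre_add hq, hD j, serre_zero_right, add_zero]
    · simpa using hN j
    · simp
    · simpa using hN (!j)
  · have h2 : (!j) = i := by cases i <;> cases j <;> simp_all
    subst h2
    rw [if_neg h, if_pos rfl, serre_add hq, hD j, serre_zero_left, add_zero]
    · simp
    · have := hN j
      rw [cc_not'] at this
      exact this
    · simp

end Serre

section Basic

variable (K : Type*) [Field K] (q : K)

/-- The generators: `e false = A`, `e true = A*`. -/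
noncomputable def e (i : Bool) : Uplus K q :=
  mk K q (FreeAlgebra.ι K (if i then 1 else 0))

theorem mk_rel {a b : FreeAlgebra K (Fin 2)} (h : Rel K q a b) : mk K q a = mk K q b :=
  RingQuot.mkAlgHom_rel K h

theorem mk_surj : Function.Surjective (mk K q) := RingQuot.mkAlgHom_surjective K (Rel K q)

theorem serre_e (i : Bool) : serre q (e K q i) (e K q (!i)) = 0 := by
  cases i
  · have := mk_rel K q (Rel.one (K := K) (q := q))
    rw [map_serre, map_zero] at this
    simpa [e] using this
  · have := mk_rel K q (Rel.two (K := K) (q := q))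
    rw [map_serre, map_zero] at this
    simpa [e] using this

variable {K q}

/-- Universal property. -/
noncomputable def lift {S : Type*} [Ring S] [Algebra K S] (X : Bool → S)
    (hX : ∀ i, serre q (X i) (X (!i)) = 0) : Uplus K q →ₐ[K] S :=
  RingQuot.liftAlgHom (s := Rel K q) K ⟨FreeAlgebra.lift K (fun i : Fin 2 => X (i = 1)), by
    intro x y h
    cases h
    · have := hX false
      rw [map_serre, map_zero]
      simpa using this
    · have := hX true
      rw [map_serre, map_zero]
      simpa using this⟩

@[simp] theorem lift_e {S : Type*} [Ring S] [Algebra K S] (X : Bool → S)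
    (hX : ∀ i, serre q (X i) (X (!i)) = 0) (i : Bool) : lift X hX (e K q i) = X i := by
  have : lift X hX (e K q i) = FreeAlgebra.lift K (fun i : Fin 2 => X (i = 1))
      (FreeAlgebra.ι K (if i then 1 else 0)) :=
    RingQuot.liftAlgHom_mkAlgHom_apply K _ _ _
  rw [this]
  cases i <;> simp

theorem ind {P : Uplus K q → Prop} (h1 : P 1) (hadd : ∀ x y, P x → P y → P (x + y))
    (hsmul : ∀ (c : K) x, P x → P (c • x)) (hmul : ∀ i x, P x → P (e K q i * x))
    (x : Uplus K q) : P x := by
  obtain ⟨w, rfl⟩ := mk_surj K q x
  have key : ∀ x, P x → P (mk K q w * x) := by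
    induction w using FreeAlgebra.induction with
    | grade0 r =>
      intro x hx
      rw [AlgHom.commutes]
      have := hsmul r x hx
      rwa [Algebra.smul_def] at this
    | grade1 i =>
      intro x hx
      have := hmul (i = 1) x hx
      have h2 : e K q (i = 1) = mk K q (FreeAlgebra.ι K i) := by
        unfold e
        fin_cases i <;> simp
      rwa [h2] at this
    | mul a b ha hb =>
      intro x hx
      rw [map_mul, mul_assoc]
      exact ha _ (hb _ hx)
    | add a b ha hb =>
      intro x hx
      rw [map_add, add_mul]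
      exact hadd _ _ (ha _ hx) (hb _ hx)
  have := key 1 h1
  rwa [mul_one] at this

theorem algHom_ext {S : Type*} [Ring S] [Algebra K S] {f g : Uplus K q →ₐ[K] S}
    (h : ∀ i, f (e K q i) = g (e K q i)) : f = g := by
  refine AlgHom.ext fun x => ?_
  induction x using ind with
  | h1 => simp
  | hadd x y hx hy => simp [hx, hy]
  | hsmul c x hx => simp [hx]
  | hmul i x hx => simp [hx, h i]

/-- Counit. -/
noncomputable def counit : Uplus K q →ₐ[K] K := lift (fun _ => 0) (by simp)

@[simp] theorem counit_e (i : Bool) : counit (e K q i) = 0 := by simp [counit]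

instance : Nontrivial (Uplus K q) := (counit (K := K) (q := q)).toRingHom.domain_nontrivial

/-- The torus automorphisms. -/
noncomputable def kap (i : Bool) : Uplus K q →ₐ[K] Uplus K q :=
  lift (fun j => cc q i j • e K q j) (by intro j; rw [serre_smul, serre_e, smul_zero])

@[simp] theorem kap_e (i j : Bool) : kap i (e K q j) = cc q i j • e K q j := by simp [kap]

/-- The scalar `1` if `i = j` and `0` otherwise. -/
def dl (i j : Bool) : K := if j = i then 1 else 0

theorem serre_mat (a b c d : Uplus K q) :
    serre q (!![a, 0; 0, b] : Matrix (Fin 2) (Fin 2) (Uplus K q)) (!![c, 0; 0, d])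
      = !![serre q a c, 0; 0, serre q b d] := by
  simp only [serre, pow_succ, pow_zero, one_mul]
  ext i j
  fin_cases i <;> fin_cases j <;> simp [Matrix.mul_apply, Fin.sum_univ_two]

/-- Matrices carrying the right skew derivation. -/
noncomputable def rmat (hq : q ≠ 0) (i : Bool) :
    Uplus K q →ₐ[K] Matrix (Fin 2) (Fin 2) (Uplus K q) :=
  lift (fun j => !![e K q j, 0; 0, cc q i j • e K q j] + if j = i then !![0, 1; 0, 0] else 0)
    (fun j => serre_right hq (fun j => !![e K q j, 0; 0, cc q i j • e K q j])
      (fun j => by rw [serre_mat, serre_smul, serre_e, smul_zero]; ext a b; fin_cases a <;>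
        fin_cases b <;> simp) i _
      (fun j => by
        ext a b; fin_cases a <;> fin_cases b <;> simp [Matrix.mul_apply, Fin.sum_univ_two]) j)

/-- Matrices carrying the left skew derivation. -/
noncomputable def lmat (hq : q ≠ 0) (i : Bool) :
    Uplus K q →ₐ[K] Matrix (Fin 2) (Fin 2) (Uplus K q) :=
  lift (fun j => (if j = i then !![0, 1; 0, 0] else 0) + !![cc q i j • e K q j, 0; 0, e K q j])
    (fun j => serre_left hq (fun j => !![cc q i j • e K q j, 0; 0, e K q j])
      (fun j => by rw [serre_mat, serre_smul, serre_e, smul_zero]; ext a b; fin_cases a <;>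
        fin_cases b <;> simp) i _
      (fun j => by
        ext a b; fin_cases a <;> fin_cases b <;> simp [Matrix.mul_apply, Fin.sum_univ_two]) j)

/-- Right skew derivation. -/
noncomputable def rd (hq : q ≠ 0) (i : Bool) : Uplus K q →ₗ[K] Uplus K q where
  toFun x := rmat hq i x 0 1
  map_add' x y := by simp
  map_smul' c x := by simp

/-- Left skew derivation. -/
noncomputable def ld (hq : q ≠ 0) (i : Bool) : Uplus K q →ₗ[K] Uplus K q where
  toFun x := lmat hq i x 0 1
  map_add' x y := by simp
  map_smul' c x := by simp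

theorem rmat_eq (hq : q ≠ 0) (i : Bool) (x : Uplus K q) :
    rmat hq i x = !![x, rd hq i x; 0, kap i x] := by
  have key : rmat hq i x 0 0 = x ∧ rmat hq i x 1 0 = 0 ∧ rmat hq i x 1 1 = kap i x := by
    induction x using ind with
    | h1 => simp
    | hadd x y hx hy => simp [hx, hy]
    | hsmul c x hx => simp [hx]
    | hmul j x hx =>
      obtain ⟨h1, h2, h3⟩ := hx
      refine ⟨?_, ?_, ?_⟩
      · rw [map_mul, Matrix.mul_apply, Fin.sum_univ_two, h1, h2]
        by_cases hj : j = i <;> simp [rmat, hj]
      · rw [map_mul, Matrix.mul_apply, Fin.sum_univ_two, h1, h2]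
        by_cases hj : j = i <;> simp [rmat, hj]
      · rw [map_mul, Matrix.mul_apply, Fin.sum_univ_two, h3]
        by_cases hj : j = i <;> simp [rmat, hj]
  ext a b
  fin_cases a <;> fin_cases b
  · simpa using key.1
  · rfl
  · simpa using key.2.1
  · simpa using key.2.2

theorem lmat_eq (hq : q ≠ 0) (i : Bool) (x : Uplus K q) :
    lmat hq i x = !![kap i x, ld hq i x; 0, x] := by
  have key : lmat hq i x 0 0 = kap i x ∧ lmat hq i x 1 0 = 0 ∧ lmat hq i x 1 1 = x := by
    induction x using ind with
    | h1 => simp
    | hadd x y hx hy => simp [hx, hy]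
    | hsmul c x hx => simp [hx]
    | hmul j x hx =>
      obtain ⟨h1, h2, h3⟩ := hx
      refine ⟨?_, ?_, ?_⟩
      · rw [map_mul, Matrix.mul_apply, Fin.sum_univ_two, h1, h2]
        by_cases hj : j = i <;> simp [lmat, hj]
      · rw [map_mul, Matrix.mul_apply, Fin.sum_univ_two, h1, h2]
        by_cases hj : j = i <;> simp [lmat, hj]
      · rw [map_mul, Matrix.mul_apply, Fin.sum_univ_two, h3]
        by_cases hj : j = i <;> simp [lmat, hj]
  ext a b
  fin_cases a <;> fin_cases b
  · simpa using key.1
  · rfl
  · simpa using key.2.1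
  · simpa using key.2.2

theorem rd_mul (hq : q ≠ 0) (i : Bool) (x y : Uplus K q) :
    rd hq i (x * y) = x * rd hq i y + rd hq i x * kap i y := by
  have h : rmat hq i (x * y) 0 1 = (rmat hq i x * rmat hq i y) 0 1 := by rw [map_mul]
  rw [rmat_eq, rmat_eq, rmat_eq, Matrix.mul_apply, Fin.sum_univ_two] at h
  simpa using h

theorem ld_mul (hq : q ≠ 0) (i : Bool) (x y : Uplus K q) :
    ld hq i (x * y) = ld hq i x * y + kap i x * ld hq i y := by
  have h : lmat hq i (x * y) 0 1 = (lmat hq i x * lmat hq i y) 0 1 := by rw [map_mul]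
  rw [lmat_eq, lmat_eq, lmat_eq, Matrix.mul_apply, Fin.sum_univ_two] at h
  simpa [add_comm] using h

@[simp] theorem rd_e (hq : q ≠ 0) (i j : Bool) : rd hq i (e K q j) = if j = i then 1 else 0 := by
  change rmat hq i (e K q j) 0 1 = _
  by_cases hj : j = i <;> simp [rmat, hj]

@[simp] theorem ld_e (hq : q ≠ 0) (i j : Bool) : ld hq i (e K q j) = if j = i then 1 else 0 := by
  change lmat hq i (e K q j) 0 1 = _
  by_cases hj : j = i <;> simp [lmat, hj]

@[simp] theorem rd_one (hq : q ≠ 0) (i : Bool) : rd hq i (1 : Uplus K q) = 0 := by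
  change rmat hq i (1 : Uplus K q) 0 1 = _
  simp

@[simp] theorem ld_one (hq : q ≠ 0) (i : Bool) : ld hq i (1 : Uplus K q) = 0 := by
  change lmat hq i (1 : Uplus K q) 0 1 = _
  simp

theorem kap_comm (i j : Bool) (x : Uplus K q) : kap i (kap j x) = kap j (kap i x) := by
  have : (kap i).comp (kap j) = (kap (K := K) (q := q) j).comp (kap i) := by
    apply algHom_ext
    intro k
    simp [smul_smul, mul_comm]
  exact DFunLike.congr_fun this x

theorem cc_symm (i j : Bool) : cc q i j = cc q j i := by
  unfold cc
  simp [eq_comm]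

/-- `ld i ∘ kap j = c_ij kap j ∘ ld i` -/
theorem ld_kap (hq : q ≠ 0) (i j : Bool) (x : Uplus K q) :
    ld hq i (kap j x) = cc q i j • kap j (ld hq i x) := by
  induction x using ind with
  | h1 => simp
  | hadd x y hx hy => simp [hx, hy]
  | hsmul c x hx => simp [hx, smul_comm c]
  | hmul k x hx =>
    rw [map_mul, kap_e, ld_mul, ld_mul, hx, map_smul, ld_e, map_add, map_mul,
      map_mul, map_smul, kap_e]
    by_cases hk : k = i
    · subst hk
      have hs := cc_symm (q := q) j k
      rw [if_pos rfl]
      simp only [hs, smul_mul_assoc, map_one, one_mul, map_smul, kap_e, mul_smul_comm]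
      module
    · rw [if_neg hk]
      simp only [smul_mul_assoc, map_zero, zero_mul, map_smul, kap_e, mul_smul_comm]
      module

theorem rd_kap (hq : q ≠ 0) (i j : Bool) (x : Uplus K q) :
    rd hq i (kap j x) = cc q i j • kap j (rd hq i x) := by
  induction x using ind with
  | h1 => simp
  | hadd x y hx hy => simp [hx, hy]
  | hsmul c x hx => simp [hx, smul_comm c]
  | hmul k x hx =>
    rw [map_mul, kap_e, rd_mul, rd_mul, hx, map_smul, rd_e, map_add, map_mul,
      map_mul, kap_e]
    by_cases hk : k = i
    · subst hk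
      rw [if_pos rfl, cc_symm j k, kap_comm]
      simp only [smul_mul_assoc, map_one, one_mul, map_smul, kap_e, mul_smul_comm]
      module
    · rw [if_neg hk]
      simp only [smul_mul_assoc, map_zero, zero_mul, map_smul, kap_e, mul_smul_comm]
      module

theorem rd_ld (hq : q ≠ 0) (i j : Bool) (x : Uplus K q) :
    rd hq i (ld hq j x) = ld hq j (rd hq i x) := by
  induction x using ind with
  | h1 => simp
  | hadd x y hx hy => simp [hx, hy]
  | hsmul c x hx => simp [hx]
  | hmul k x hx =>
    rw [ld_mul, rd_mul, map_add, map_add, kap_e, rd_mul, rd_mul, ld_mul, ld_mul, hx, ld_kap]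
    by_cases hk : k = i
    · by_cases hk' : k = j
      · subst hk; subst hk'
        simp only [ld_e, rd_e, ↓reduceIte, rd_one, ld_one, map_one, kap_e, map_smul]
        simp only [one_mul, zero_mul, smul_mul_assoc]
        module
      · subst hk
        have hs := cc_symm (q := q) j k
        simp only [ld_e, rd_e, ↓reduceIte, hk', rd_one, ld_one, map_one, kap_e, map_smul, map_zero]
        simp only [hs, one_mul, zero_mul, smul_mul_assoc]
        module
    · by_cases hk' : k = j
      · subst hk'
        simp only [ld_e, rd_e, ↓reduceIte, hk, rd_one, ld_one, map_one, kap_e, map_smul, map_zero]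
        simp only [one_mul, zero_mul, smul_mul_assoc]
        module
      · simp only [ld_e, rd_e, ↓reduceIte, hk, hk', rd_one, ld_one, map_one, kap_e, map_smul,
          map_zero]
        simp only [one_mul, zero_mul, smul_mul_assoc]
        module

end Basic

end Pool.Agent.H918R3.Uq
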