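import Pool.Agent.H918R3.Uq1

/-!
The grading of `U^+` by pairs of degrees.
-/

namespace Pool.Agent.H918R3.Uq

open scoped TensorProduct

variable {K : Type*} [Field K] {q : K}

/-- unit vectors -/
def dg (i : Bool) : Bool → ℕ := Pi.single i 1

@[simp] theorem dg_self (i : Bool) : dg i i = 1 := by simp [dg]

@[simp] theorem dg_not (i : Bool) : dg i (!i) = 0 := by simp [dg]

theorem dg_ne {i j : Bool} (h : j ≠ i) : dg i j = 0 := by simp [dg, h]

theorem serre_single {G : Type*} [AddCommMonoid G] (a b : G) (x y : Uplus K q) :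
    serre q (AddMonoidAlgebra.single a x : AddMonoidAlgebra (Uplus K q) G)
      (AddMonoidAlgebra.single b y) = AddMonoidAlgebra.single (a + a + a + b) (serre q x y) := by
  have h1 : a + a + b + a = a + a + a + b := by
    rw [add_assoc (a + a), add_comm b a, ← add_assoc]
  have h2 : a + b + (a + a) = a + a + a + b := by
    rw [add_comm (a + b), ← add_assoc]
  have h3 : b + (a + a + a) = a + a + a + b := add_comm _ _
  simp only [serre, pow_succ, pow_zero, one_mul, AddMonoidAlgebra.single_mul_single,
    AddMonoidAlgebra.smul_single, h1, h2, h3, AddMonoidAlgebra.single_sub,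
    AddMonoidAlgebra.single_add]

/-- The grading homomorphism. -/
noncomputable def gam : Uplus K q →ₐ[K] AddMonoidAlgebra (Uplus K q) (Bool → ℕ) :=
  lift (fun i => AddMonoidAlgebra.single (dg i) (e K q i)) (by
    intro i
    rw [serre_single, serre_e, AddMonoidAlgebra.single_zero])

@[simp] theorem gam_e (i : Bool) :
    gam (e K q i) = AddMonoidAlgebra.single (dg i) (e K q i) := by simp [gam]

/-- Homogeneous components. -/
noncomputable def comp (d : Bool → ℕ) : Uplus K q →ₗ[K] Uplus K q where
  toFun x := (gam x).coeff d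
  map_add' x y := by simp
  map_smul' c x := by simp

theorem comp_one (d : Bool → ℕ) : comp d (1 : Uplus K q) = if d = 0 then 1 else 0 := by
  change (gam (1 : Uplus K q)).coeff d = _
  rw [map_one, AddMonoidAlgebra.one_def, AddMonoidAlgebra.coeff_single_apply]
  simp [eq_comm]

theorem comp_e_mul (i : Bool) (d : Bool → ℕ) (x : Uplus K q) :
    comp (d + dg i) (e K q i * x) = e K q i * comp d x := by
  change (gam (e K q i * x)).coeff (d + dg i) = _
  rw [map_mul, gam_e, AddMonoidAlgebra.coeff_single_mul_eq_mul_coeff d]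
  · rfl
  · intro d' _
    rw [add_comm (dg i) d']
    exact add_left_inj _

theorem comp_e_mul_zero (i : Bool) (d : Bool → ℕ) (hd : d i = 0) (x : Uplus K q) :
    comp d (e K q i * x) = 0 := by
  change (gam (e K q i * x)).coeff d = _
  rw [map_mul, gam_e, AddMonoidAlgebra.coeff_single_mul_of_forall_add_ne]
  intro d' h
  have := congrFun h i
  simp only [Pi.add_apply, dg_self, hd] at this
  omega

theorem exists_eq_add (i : Bool) (d : Bool → ℕ) (hd : d i ≠ 0) : ∃ d', d = d' + dg i := by
  refine ⟨d - dg i, ?_⟩
  funext j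
  by_cases hj : j = i
  · subst hj
    simp only [Pi.add_apply, Pi.sub_apply, dg_self]
    omega
  · simp [dg_ne hj]

/-- Homogeneous of degree `d`. -/
def IsH (d : Bool → ℕ) (x : Uplus K q) : Prop := gam x = AddMonoidAlgebra.single d x

theorem IsH.one : IsH 0 (1 : Uplus K q) := by
  unfold IsH; rw [map_one, AddMonoidAlgebra.one_def]

theorem IsH.eH (i : Bool) : IsH (dg i) (e K q i) := gam_e i

theorem IsH.mul {d d' : Bool → ℕ} {x y : Uplus K q} (hx : IsH d x) (hy : IsH d' y) :
    IsH (d + d') (x * y) := by
  unfold IsH at *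
  rw [map_mul, hx, hy, AddMonoidAlgebra.single_mul_single]

theorem IsH.add {d : Bool → ℕ} {x y : Uplus K q} (hx : IsH d x) (hy : IsH d y) :
    IsH d (x + y) := by
  unfold IsH at *
  rw [map_add, hx, hy, AddMonoidAlgebra.single_add]

theorem IsH.zero {d : Bool → ℕ} : IsH d (0 : Uplus K q) := by
  unfold IsH
  rw [map_zero, AddMonoidAlgebra.single_zero]

theorem IsH.smul {d : Bool → ℕ} {x : Uplus K q} (c : K) (hx : IsH d x) : IsH d (c • x) := by
  unfold IsH at *
  rw [map_smul, hx, AddMonoidAlgebra.smul_single]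

theorem IsH.comp_self {d : Bool → ℕ} {x : Uplus K q} (hx : IsH d x) : comp d x = x := by
  change (gam x).coeff d = x
  rw [hx, AddMonoidAlgebra.coeff_single_apply, if_pos rfl]

theorem IsH.comp_ne {d d' : Bool → ℕ} {x : Uplus K q} (hx : IsH d x) (h : d' ≠ d) :
    comp d' x = 0 := by
  change (gam x).coeff d' = 0
  rw [hx, AddMonoidAlgebra.coeff_single_apply, if_neg (Ne.symm h)]

theorem isH_comp (x : Uplus K q) : ∀ d, IsH d (comp d x) := by
  induction x using ind with
  | h1 =>
    intro d
    rw [comp_one]
    split_ifs with h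
    · subst h; exact IsH.one
    · exact IsH.zero
  | hadd x y hx hy => intro d; rw [map_add]; exact (hx d).add (hy d)
  | hsmul c x hx => intro d; rw [map_smul]; exact (hx d).smul c
  | hmul i x hx =>
    intro d
    by_cases hd : d i = 0
    · rw [comp_e_mul_zero i d hd]; exact IsH.zero
    · obtain ⟨d', rfl⟩ := exists_eq_add i d hd
      rw [comp_e_mul, add_comm]
      exact (IsH.eH i).mul (hx d')

theorem sum_comp (x : Uplus K q) : ((gam x).coeff.sum fun _ y => y) = x := by
  let tot : AddMonoidAlgebra (Uplus K q) (Bool → ℕ) →+* Uplus K q :=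
    AddMonoidAlgebra.liftNCRingHom (RingHom.id (Uplus K q)) 1 (by intro a b; simp)
  have h1 : ∀ z : AddMonoidAlgebra (Uplus K q) (Bool → ℕ), tot z = z.coeff.sum fun _ y => y := by
    intro z
    change AddMonoidAlgebra.liftNC _ _ z = _
    rw [AddMonoidAlgebra.liftNC]
    simp [Finsupp.sum]
  have h2 : ∀ (d : Bool → ℕ) (y : Uplus K q), tot (AddMonoidAlgebra.single d y) = y := by
    intro d y
    rw [h1]
    simp
  rw [← h1]
  induction x using ind with
  | h1 => simp
  | hadd x y hx hy => rw [map_add, map_add, hx, hy]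
  | hsmul c x hx =>
    rw [h1] at hx
    rw [map_smul, h1, AddMonoidAlgebra.coeff_smul, Finsupp.sum_smul_index' (by simp),
      ← Finsupp.smul_sum, hx]
  | hmul i x hx => rw [map_mul, map_mul, hx, gam_e, h2]

theorem ext_comp {x y : Uplus K q} (h : ∀ d, comp d x = comp d y) : x = y := by
  have : (gam x).coeff = (gam y).coeff := by
    ext d
    exact h d
  rw [← sum_comp x, ← sum_comp y, this]

/-- homogeneous induction -/
theorem mem_of_comp {P : Uplus K q → Prop} (hadd : ∀ x y, P x → P y → P (x + y)) (h0 : P 0)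
    (x : Uplus K q) (h : ∀ d, P (comp d x)) : P x := by
  rw [← sum_comp x, Finsupp.sum]
  exact Finset.sum_induction _ P hadd h0 (fun d _ => h d)

/-- the scalar by which `kap i` acts in degree `d` -/
def wt (q : K) (i : Bool) (d : Bool → ℕ) : K := q ^ (2 * ((d i : ℤ) - (d (!i) : ℤ)))

theorem wt_zero (i : Bool) : wt q i 0 = 1 := by simp [wt]

theorem wt_add_dg (hq : q ≠ 0) (i j : Bool) (d : Bool → ℕ) :
    wt q i (d + dg j) = cc q i j * wt q i d := by
  unfold wt cc
  by_cases h : i = j
  · subst h
    rw [if_pos rfl, ← zpow_natCast, ← zpow_add₀ hq]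
    congr 1
    simp only [Pi.add_apply, dg_self, dg_not]
    push_cast
    ring
  · have h2 : (!i) = j := by cases i <;> cases j <;> simp_all
    subst h2
    have h3 : dg (!i) i = 0 := dg_ne (by simp)
    rw [if_neg h, inv_pow, ← zpow_natCast, ← zpow_neg, ← zpow_add₀ hq]
    congr 1
    simp only [Pi.add_apply, dg_self, h3]
    push_cast
    ring

theorem kap_comp (hq : q ≠ 0) (i : Bool) (x : Uplus K q) :
    ∀ d, kap i (comp d x) = wt q i d • comp d x := by
  induction x using ind with
  | h1 =>
    intro d
    rw [comp_one]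
    split_ifs with h
    · subst h; simp [wt_zero]
    · simp
  | hadd x y hx hy => intro d; simp only [map_add, smul_add, hx, hy]
  | hsmul c x hx => intro d; simp only [map_smul, hx]; rw [smul_comm]
  | hmul j x hx =>
    intro d
    by_cases hd : d j = 0
    · rw [comp_e_mul_zero j d hd]; simp
    · obtain ⟨d', rfl⟩ := exists_eq_add j d hd
      rw [comp_e_mul, map_mul, hx, kap_e, wt_add_dg hq, smul_mul_smul_comm]

theorem IsH.kapH (hq : q ≠ 0) (i : Bool) {d : Bool → ℕ} {x : Uplus K q} (hx : IsH d x) :
    kap i x = wt q i d • x := by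
  have := kap_comp hq i x d
  rwa [hx.comp_self] at this

theorem comp_kap (hq : q ≠ 0) (i : Bool) (d : Bool → ℕ) (x : Uplus K q) :
    comp d (kap i x) = kap i (comp d x) := by
  rw [kap_comp hq]
  induction x using ind generalizing d with
  | h1 =>
    rw [map_one, comp_one]
    split_ifs with h
    · subst h; simp [wt_zero]
    · simp
  | hadd x y hx hy => simp only [map_add, smul_add, hx, hy]
  | hsmul c x hx => simp only [map_smul, hx]; rw [smul_comm]
  | hmul j x hx =>
    rw [map_mul, kap_e, smul_mul_assoc, map_smul]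
    by_cases hd : d j = 0
    · rw [comp_e_mul_zero j d hd, comp_e_mul_zero j d hd]; simp
    · obtain ⟨d', rfl⟩ := exists_eq_add j d hd
      rw [comp_e_mul, comp_e_mul, hx, wt_add_dg hq, mul_smul_comm, smul_smul]

theorem comp_deriv (i : Bool) (f g : Uplus K q →ₗ[K] Uplus K q) (c : Bool → K) (hf1 : f 1 = 0)
    (hf : ∀ j x, f (e K q j * x) = (if j = i then g x else 0) + c j • (e K q j * f x))
    (hg : ∀ d x, comp d (g x) = g (comp d x)) (x : Uplus K q) :
    ∀ d, comp d (f x) = f (comp (d + dg i) x) ∧ (d i = 0 → f (comp d x) = 0) := by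
  induction x using ind with
  | h1 =>
    intro d
    constructor
    · rw [hf1, comp_one, if_neg, map_zero, map_zero]
      intro h
      have := congrFun h i
      simp at this
    · intro _
      rw [comp_one]
      split_ifs <;> simp [hf1]
  | hadd x y hx hy =>
    intro d
    constructor
    · simp only [map_add, (hx d).1, (hy d).1]
    · intro h
      simp only [map_add, (hx d).2 h, (hy d).2 h, add_zero]
  | hsmul c x hx =>
    intro d
    constructor
    · simp only [map_smul, (hx d).1]
    · intro h
      simp only [map_smul, (hx d).2 h, smul_zero]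
  | hmul j x hx =>
    intro d
    by_cases hd : d j = 0
    · constructor
      · rw [hf, map_add, map_smul, comp_e_mul_zero j d hd, smul_zero, add_zero]
        by_cases hj : j = i
        · subst hj
          rw [if_pos rfl, comp_e_mul, hf, if_pos rfl, (hx d).2 hd, mul_zero, smul_zero, add_zero,
            hg]
        · rw [if_neg hj, map_zero, comp_e_mul_zero, map_zero]
          simp [hd, dg_ne hj]
      · intro _
        rw [comp_e_mul_zero j d hd, map_zero]
    · obtain ⟨d', rfl⟩ := exists_eq_add j d hd
      constructor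
      · rw [hf, map_add, map_smul, comp_e_mul, add_right_comm, comp_e_mul, hf, (hx d').1]
        by_cases hj : j = i
        · subst hj
          rw [if_pos rfl, if_pos rfl, hg]
        · rw [if_neg hj, if_neg hj, map_zero]
      · intro h
        have hj : j ≠ i := by
          intro hj
          subst hj
          simp at h
        have h' : d' i = 0 := by
          simp only [Pi.add_apply] at h
          omega
        rw [comp_e_mul, hf, if_neg hj, (hx d').2 h', mul_zero, smul_zero, add_zero]

theorem comp_rd (hq : q ≠ 0) (i : Bool) (x : Uplus K q) :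
    ∀ d, comp d (rd hq i x) = rd hq i (comp (d + dg i) x) ∧
      (d i = 0 → rd hq i (comp d x) = 0) := by
  refine comp_deriv i (rd hq i) (kap i).toLinearMap (fun _ => 1) (by simp) ?_ ?_ x
  · intro j x
    rw [rd_mul, rd_e]
    by_cases hj : j = i
    · simp [hj, add_comm]
    · simp [hj]
  · intro d x
    exact comp_kap hq i d x

theorem comp_ld (hq : q ≠ 0) (i : Bool) (x : Uplus K q) :
    ∀ d, comp d (ld hq i x) = ld hq i (comp (d + dg i) x) ∧
      (d i = 0 → ld hq i (comp d x) = 0) := by
  refine comp_deriv i (ld hq i) LinearMap.id (fun j => cc q i j) (by simp) ?_ ?_ x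
  · intro j x
    rw [ld_mul, ld_e, kap_e]
    by_cases hj : j = i
    · simp [hj]
    · simp [hj]
  · intro d x
    rfl

theorem IsH.rdH (hq : q ≠ 0) {i : Bool} {d : Bool → ℕ} {x : Uplus K q} (hx : IsH (d + dg i) x) :
    IsH d (rd hq i x) := by
  have h := (comp_rd hq i x d).1
  rw [hx.comp_self] at h
  rw [← h]
  exact isH_comp _ _

theorem IsH.ldH (hq : q ≠ 0) {i : Bool} {d : Bool → ℕ} {x : Uplus K q} (hx : IsH (d + dg i) x) :
    IsH d (ld hq i x) := by
  have h := (comp_ld hq i x d).1
  rw [hx.comp_self] at h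
  rw [← h]
  exact isH_comp _ _

theorem IsH.rd_zero (hq : q ≠ 0) {i : Bool} {d : Bool → ℕ} {x : Uplus K q} (hx : IsH d x)
    (hd : d i = 0) : rd hq i x = 0 := by
  have h := (comp_rd hq i x d).2 hd
  rwa [hx.comp_self] at h

theorem IsH.ld_zero (hq : q ≠ 0) {i : Bool} {d : Bool → ℕ} {x : Uplus K q} (hx : IsH d x)
    (hd : d i = 0) : ld hq i x = 0 := by
  have h := (comp_ld hq i x d).2 hd
  rwa [hx.comp_self] at h

/-- degree zero part consists of scalars -/
theorem comp_zero_eq (x : Uplus K q) : ∃ c : K, comp 0 x = c • 1 := by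
  induction x using ind with
  | h1 => exact ⟨1, by simp [comp_one]⟩
  | hadd x y hx hy =>
    obtain ⟨a, ha⟩ := hx
    obtain ⟨b, hb⟩ := hy
    exact ⟨a + b, by rw [map_add, ha, hb, add_smul]⟩
  | hsmul c x hx =>
    obtain ⟨a, ha⟩ := hx
    exact ⟨c * a, by rw [map_smul, ha, smul_smul]⟩
  | hmul i x hx => exact ⟨0, by rw [comp_e_mul_zero i 0 rfl, zero_smul]⟩

end Pool.Agent.H918R3.Uq
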