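import Pool.Agent.H918R3.Uq2

/-!
The kernel of a right skew derivation, and integrability.
-/

namespace Pool.Agent.H918R3.Uq

open scoped TensorProduct

variable {K : Type*} [Field K] {q : K}

/-- `1 + q^2 + ... + q^(2(k-1))` -/
def qn (q : K) (k : ℕ) : K := ∑ j ∈ Finset.range k, (q ^ 2) ^ j

theorem qn_succ (k : ℕ) : qn q (k + 1) = qn q k + q ^ (2 * k) := by
  rw [qn, Finset.sum_range_succ, ← qn, pow_mul]

theorem qn_succ' (k : ℕ) : qn q (k + 1) = 1 + q ^ 2 * qn q k := by
  rw [qn, Finset.sum_range_succ', qn, Finset.mul_sum, add_comm]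
  congr 1
  · simp
  · exact Finset.sum_congr rfl fun j _ => by ring

@[simp] theorem qn_zero : qn q 0 = 0 := by simp [qn]

@[simp] theorem qn_one : qn q 1 = 1 := by simp [qn]

theorem qn_mul (k : ℕ) : (1 - q ^ 2) * qn q k = 1 - q ^ (2 * k) := by
  induction k with
  | zero => simp
  | succ k ih =>
    rw [qn_succ, mul_add, ih]
    ring

theorem qn_ne_zero (hr : ∀ n : ℕ, 0 < n → q ^ n ≠ 1) {k : ℕ} (hk : 0 < k) : qn q k ≠ 0 := by
  intro h
  have h1 := qn_mul (q := q) k
  rw [h, mul_zero] at h1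
  exact hr (2 * k) (by omega) (by linear_combination h1)

theorem zpow_eq (hq : q ≠ 0) (hr : ∀ n : ℕ, 0 < n → q ^ n ≠ 1) {m : ℤ} (h : q ^ m = 1) :
    m = 0 := by
  rcases Int.eq_nat_or_neg m with ⟨n, rfl | rfl⟩
  · rw [zpow_natCast] at h
    by_contra hn
    exact hr n (by omega) h
  · rw [zpow_neg, zpow_natCast, inv_eq_one] at h
    by_contra hn
    exact hr n (by omega) h

/-! ### powers of the right derivation and central elements -/

theorem rd_pow_e_mul (hq : q ≠ 0) (i : Bool) (x : Uplus K q) (k : ℕ) :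
    (rd hq i ^ (k + 1)) (e K q i * x) =
      e K q i * (rd hq i ^ (k + 1)) x + qn q (k + 1) • kap i ((rd hq i ^ k) x) := by
  induction k with
  | zero => simp [rd_mul]
  | succ k ih =>
    rw [pow_succ', Module.End.mul_apply, ih, map_add, map_smul, rd_kap, rd_mul, rd_e, if_pos rfl,
      one_mul, cc_self, ← Module.End.mul_apply, ← pow_succ', qn_succ' (k + 1),
      ← Module.End.mul_apply (rd hq i) (rd hq i ^ k), ← pow_succ']
    module

theorem rd_pow_mul_e (hq : q ≠ 0) (i : Bool) (x : Uplus K q) (k : ℕ) :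
    (rd hq i ^ (k + 1)) (x * e K q i) =
      q ^ (2 * (k + 1)) • ((rd hq i ^ (k + 1)) x * e K q i) + qn q (k + 1) • (rd hq i ^ k) x := by
  induction k with
  | zero => simp [rd_mul, add_comm]
  | succ k ih =>
    rw [pow_succ', Module.End.mul_apply, ih, map_add, map_smul, map_smul, rd_mul, rd_e, if_pos rfl,
      mul_one, kap_e, cc_self, ← Module.End.mul_apply, ← pow_succ', qn_succ (k + 1),
      ← Module.End.mul_apply (rd hq i) (rd hq i ^ k), ← pow_succ', mul_smul_comm]
    module

theorem isH_rd_pow (hq : q ≠ 0) (i : Bool) {d : Bool → ℕ} {x : Uplus K q} (hx : IsH d x) (k : ℕ) :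
    (∃ d', d = d' + k • dg i ∧ IsH d' ((rd hq i ^ k) x)) ∨ (rd hq i ^ k) x = 0 := by
  induction k with
  | zero => left; exact ⟨d, by simp, by simpa using hx⟩
  | succ k ih =>
    rw [pow_succ', Module.End.mul_apply]
    rcases ih with ⟨d', hd, h⟩ | h
    · by_cases h0 : d' i = 0
      · right; exact h.rd_zero hq h0
      · obtain ⟨d'', rfl⟩ := exists_eq_add i d' h0
        left
        refine ⟨d'', ?_, h.rdH hq⟩
        rw [hd, succ_nsmul, add_assoc, add_comm (dg i)]
    · right; rw [h, map_zero]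

theorem wt_eq_one (hq : q ≠ 0) (hr : ∀ n : ℕ, 0 < n → q ^ n ≠ 1) {i : Bool} {d : Bool → ℕ}
    (h : wt q i d = 1) : d i = d (!i) := by
  have := zpow_eq hq hr h
  omega

theorem central_aux (hq : q ≠ 0) (hr : ∀ n : ℕ, 0 < n → q ^ n ≠ 1) (i : Bool) {d : Bool → ℕ}
    {z : Uplus K q} (hz : IsH d z) (hz0 : z ≠ 0) (hc : e K q i * z = z * e K q i) :
    ∃ n : ℕ, d i = n + d (!i) ∧ (rd hq i ^ (n + 1)) z = 0 := by
  have hex : ∃ m, (rd hq i ^ m) z = 0 := by
    refine ⟨d i + 1, ?_⟩
    rcases isH_rd_pow hq i hz (d i + 1) with ⟨d', hd, -⟩ | h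
    · exfalso
      have := congrFun hd i
      simp at this
      omega
    · exact h
  classical
  obtain ⟨n, hn⟩ : ∃ n, Nat.find hex = n + 1 := by
    rcases h : Nat.find hex with _ | n
    · exfalso
      have := Nat.find_spec hex
      rw [h] at this
      exact hz0 (by simpa using this)
    · exact ⟨n, rfl⟩
  have h1 : (rd hq i ^ (n + 1)) z = 0 := by rw [← hn]; exact Nat.find_spec hex
  have h2 : (rd hq i ^ n) z ≠ 0 := Nat.find_min hex (by omega)
  refine ⟨n, ?_, h1⟩
  have h3 := congrArg (rd hq i ^ (n + 1)) hc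
  rw [rd_pow_e_mul, rd_pow_mul_e, h1, mul_zero, zero_mul, smul_zero, zero_add, zero_add] at h3
  have h4 : kap i ((rd hq i ^ n) z) = (rd hq i ^ n) z :=
    smul_right_injective _ (qn_ne_zero hr (Nat.succ_pos n)) h3
  rcases isH_rd_pow hq i hz n with ⟨d', hd, h⟩ | h
  · rw [h.kapH hq] at h4
    have h6 : wt q i d' = 1 ∨ (rd hq i ^ n) z = 0 := by
      by_contra hcon
      push Not at hcon
      exact hcon.1 (smul_left_injective K hcon.2 (by simpa using h4))
    rcases h6 with h6 | h6
    · have h7 := wt_eq_one hq hr h6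
      have h8 := congrFun hd i
      have h9 := congrFun hd (!i)
      simp at h8 h9
      omega
    · exact absurd h6 h2
  · exact absurd h h2

/-- Central homogeneous elements are killed by the right derivations. -/
theorem central_rd (hq : q ≠ 0) (hr : ∀ n : ℕ, 0 < n → q ^ n ≠ 1) {d : Bool → ℕ}
    {z : Uplus K q} (hz : IsH d z) (hc : ∀ i, e K q i * z = z * e K q i) (i : Bool) :
    rd hq i z = 0 := by
  by_cases hz0 : z = 0
  · rw [hz0, map_zero]
  obtain ⟨n, hn, h1⟩ := central_aux hq hr i hz hz0 (hc i)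
  obtain ⟨m, hm, h2⟩ := central_aux hq hr (!i) hz hz0 (hc (!i))
  rw [Bool.not_not] at hm
  have : n = 0 := by omega
  subst this
  simpa using h1

/-! ### the q-adjoint action and the kernel of the right derivation -/

/-- `x ↦ e_i x - kap_i(x) e_i` -/
noncomputable def Ea (i : Bool) : Uplus K q →ₗ[K] Uplus K q where
  toFun x := e K q i * x - kap i x * e K q i
  map_add' x y := by rw [map_add, mul_add, add_mul]; abel
  map_smul' c x := by
    rw [map_smul, mul_smul_comm, smul_mul_assoc, ← smul_sub, RingHom.id_apply]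

theorem Ea_apply (i : Bool) (x : Uplus K q) : Ea i x = e K q i * x - kap i x * e K q i := rfl

theorem Ea_mul (i : Bool) (x y : Uplus K q) : Ea i (x * y) = Ea i x * y + kap i x * Ea i y := by
  simp only [Ea_apply, map_mul, sub_mul, mul_sub, mul_assoc]
  abel

theorem Ea3 (hq : q ≠ 0) (i : Bool) : Ea i (Ea i (Ea i (e K q (!i)))) = 0 := by
  rw [← serre_e K q i]
  have h1 : q ^ 2 * q⁻¹ ^ 2 = 1 := by field_simp
  simp only [Ea_apply, map_mul, map_sub, kap_e, cc_self, cc_not, serre, map_smul]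
  simp only [mul_smul_comm, smul_mul_assoc, smul_smul, pow_succ, pow_zero, one_mul, mul_sub,
    sub_mul, smul_sub, mul_assoc]
  match_scalars <;> field_simp <;> ring

/-- The subalgebra generated by `e_j`, `[e_i, e_j]`, `[e_i, [e_i, e_j]]` (`j ≠ i`). -/
noncomputable def TT (K : Type*) [Field K] (q : K) (i : Bool) : Subalgebra K (Uplus K q) :=
  Algebra.adjoin K {e K q (!i), Ea i (e K q (!i)), Ea i (Ea i (e K q (!i)))}

theorem rd_Ea (hq : q ≠ 0) (i : Bool) {x : Uplus K q} (hx : rd hq i x = 0) :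
    rd hq i (Ea i x) = 0 := by
  rw [Ea_apply, map_sub, rd_mul, rd_mul, hx, rd_e, if_pos rfl, rd_kap, hx]
  simp

theorem rd_e_not (hq : q ≠ 0) (i : Bool) : rd hq i (e K q (!i)) = 0 := by
  rw [rd_e, if_neg (by simp)]

theorem kap_Ea (i : Bool) (x : Uplus K q) : kap i (Ea i x) = q ^ 2 • Ea i (kap i x) := by
  rw [Ea_apply, Ea_apply, map_sub, map_mul, map_mul, kap_e, cc_self]
  simp [smul_sub]

theorem kap_mem (i : Bool) {x : Uplus K q} (hx : x ∈ TT K q i) : kap i x ∈ TT K q i := by
  unfold TT at hx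
  induction hx using Algebra.adjoin_induction with
  | mem x hx =>
    have hm : ∀ y ∈ ({e K q (!i), Ea i (e K q (!i)), Ea i (Ea i (e K q (!i)))} :
        Set (Uplus K q)), y ∈ TT K q i := fun y hy => Algebra.subset_adjoin hy
    simp only [Set.mem_insert_iff, Set.mem_singleton_iff] at hx
    rcases hx with rfl | rfl | rfl
    · rw [kap_e]; exact Subalgebra.smul_mem _ (hm _ (by simp)) _
    · rw [kap_Ea, kap_e, map_smul]
      exact Subalgebra.smul_mem _ (Subalgebra.smul_mem _ (hm _ (by simp)) _) _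
    · rw [kap_Ea, kap_Ea, kap_e, map_smul, map_smul, map_smul]
      exact Subalgebra.smul_mem _ (Subalgebra.smul_mem _ (Subalgebra.smul_mem _
        (hm _ (by simp)) _) _) _
  | algebraMap r => rw [AlgHom.commutes]; exact Subalgebra.algebraMap_mem _ r
  | add x y _ _ hx hy => rw [map_add]; exact Subalgebra.add_mem _ hx hy
  | mul x y _ _ hx hy => rw [map_mul]; exact Subalgebra.mul_mem _ hx hy

theorem Ea_mem (hq : q ≠ 0) (i : Bool) {x : Uplus K q} (hx : x ∈ TT K q i) :
    Ea i x ∈ TT K q i := by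
  unfold TT at hx
  induction hx using Algebra.adjoin_induction with
  | mem x hx =>
    have hm : ∀ y ∈ ({e K q (!i), Ea i (e K q (!i)), Ea i (Ea i (e K q (!i)))} :
        Set (Uplus K q)), y ∈ TT K q i := fun y hy => Algebra.subset_adjoin hy
    simp only [Set.mem_insert_iff, Set.mem_singleton_iff] at hx
    rcases hx with rfl | rfl | rfl
    · exact hm _ (by simp)
    · exact hm _ (by simp)
    · rw [Ea3 hq]; exact Subalgebra.zero_mem _
  | algebraMap r =>
    have : Ea i (algebraMap K (Uplus K q) r) = 0 := by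
      rw [Ea_apply, AlgHom.commutes, Algebra.commutes, sub_self]
    rw [this]; exact Subalgebra.zero_mem _
  | add x y _ _ hx hy => rw [map_add]; exact Subalgebra.add_mem _ hx hy
  | mul x y hx' hy' hx hy =>
    rw [Ea_mul]
    exact Subalgebra.add_mem _ (Subalgebra.mul_mem _ hx hy')
      (Subalgebra.mul_mem _ (kap_mem i hx') hy)

theorem rd_of_mem (hq : q ≠ 0) (i : Bool) {x : Uplus K q} (hx : x ∈ TT K q i) :
    rd hq i x = 0 := by
  unfold TT at hx
  induction hx using Algebra.adjoin_induction with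
  | mem x hx =>
    simp only [Set.mem_insert_iff, Set.mem_singleton_iff] at hx
    rcases hx with rfl | rfl | rfl
    · exact rd_e_not hq i
    · exact rd_Ea hq i (rd_e_not hq i)
    · exact rd_Ea hq i (rd_Ea hq i (rd_e_not hq i))
  | algebraMap r => rw [Algebra.algebraMap_eq_smul_one, map_smul, rd_one, smul_zero]
  | add x y _ _ hx hy => rw [map_add, hx, hy, add_zero]
  | mul x y _ _ hx hy => rw [rd_mul, hx, hy, mul_zero, zero_mul, add_zero]

/-- Sums of `t_k e_i^k`, `k < n`. -/
def InV (q : K) (i : Bool) (n : ℕ) (x : Uplus K q) : Prop :=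
  ∃ t : ℕ → Uplus K q, (∀ k, t k ∈ TT K q i) ∧
    x = ∑ k ∈ Finset.range n, t k * e K q i ^ k

theorem InV.mono {i : Bool} {n m : ℕ} (h : n ≤ m) {x : Uplus K q} (hx : InV q i n x) :
    InV q i m x := by
  obtain ⟨t, ht, rfl⟩ := hx
  refine ⟨fun k => if k < n then t k else 0, ?_, ?_⟩
  · intro k
    dsimp only
    split_ifs
    · exact ht k
    · exact Subalgebra.zero_mem _
  · rw [← Finset.sum_subset (Finset.range_mono h)]
    · refine Finset.sum_congr rfl fun k hk => ?_
      have hk' : k < n := Finset.mem_range.1 hk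
      simp [hk']
    · intro k _ hk
      have hk' : ¬ k < n := fun h' => hk (Finset.mem_range.2 h')
      simp [hk']

theorem InV.add {i : Bool} {n : ℕ} {x y : Uplus K q} (hx : InV q i n x) (hy : InV q i n y) :
    InV q i n (x + y) := by
  obtain ⟨t, ht, rfl⟩ := hx
  obtain ⟨s, hs, rfl⟩ := hy
  refine ⟨fun k => t k + s k, fun k => Subalgebra.add_mem _ (ht k) (hs k), ?_⟩
  rw [← Finset.sum_add_distrib]
  exact Finset.sum_congr rfl fun k _ => by rw [add_mul]

theorem exists_InV (hq : q ≠ 0) (i : Bool) (x : Uplus K q) : ∃ n, InV q i n x := by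
  induction x using ind with
  | h1 => exact ⟨1, fun _ => 1, fun _ => Subalgebra.one_mem _, by simp⟩
  | hadd x y hx hy =>
    obtain ⟨n, hn⟩ := hx
    obtain ⟨m, hm⟩ := hy
    exact ⟨max n m, (hn.mono (le_max_left _ _)).add (hm.mono (le_max_right _ _))⟩
  | hsmul c x hx =>
    obtain ⟨n, t, ht, rfl⟩ := hx
    exact ⟨n, fun k => c • t k, fun k => Subalgebra.smul_mem _ (ht k) c, by
      rw [Finset.smul_sum]; exact Finset.sum_congr rfl fun k _ => by rw [smul_mul_assoc]⟩
  | hmul j x hx =>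
    obtain ⟨n, t, ht, rfl⟩ := hx
    by_cases hj : j = i
    · subst hj
      refine ⟨n + 1, ?_⟩
      have h1 : InV q j (n + 1) (∑ k ∈ Finset.range n, Ea j (t k) * e K q j ^ k) :=
        InV.mono (Nat.le_succ n) ⟨fun k => Ea j (t k), fun k => Ea_mem hq j (ht k), rfl⟩
      have h2 : InV q j (n + 1) (∑ k ∈ Finset.range n, kap j (t k) * e K q j ^ (k + 1)) := by
        refine ⟨fun k => if k = 0 then 0 else kap j (t (k - 1)), ?_, ?_⟩
        · intro k
          dsimp only
          split_ifs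
          · exact Subalgebra.zero_mem _
          · exact kap_mem j (ht _)
        · rw [Finset.sum_range_succ']
          simp
      have h3 := h1.add h2
      convert h3 using 1
      rw [← Finset.sum_add_distrib, Finset.mul_sum]
      refine Finset.sum_congr rfl fun k _ => ?_
      rw [Ea_apply, pow_succ']
      simp only [sub_mul, mul_assoc]
      abel
    · have hj' : j = !i := by cases i <;> cases j <;> simp_all
      subst hj'
      refine ⟨n, fun k => e K q (!i) * t k, fun k => ?_, ?_⟩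
      · exact Subalgebra.mul_mem _ (Algebra.subset_adjoin (by simp)) (ht k)
      · rw [Finset.mul_sum]
        exact Finset.sum_congr rfl fun k _ => by rw [mul_assoc]

theorem rd_e_pow (hq : q ≠ 0) (i : Bool) (k : ℕ) :
    rd hq i (e K q i ^ (k + 1)) = qn q (k + 1) • e K q i ^ k := by
  induction k with
  | zero => simp
  | succ k ih =>
    rw [pow_succ, rd_mul, ih, rd_e, if_pos rfl, kap_e, cc_self, qn_succ' (k + 1), mul_one,
      mul_smul_comm, smul_mul_assoc, ← pow_succ]
    module

theorem rd_te (hq : q ≠ 0) (i : Bool) {t : Uplus K q} (ht : t ∈ TT K q i) (k : ℕ) :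
    rd hq i (t * e K q i ^ (k + 1)) = qn q (k + 1) • (t * e K q i ^ k) := by
  rw [rd_mul, rd_of_mem hq i ht, rd_e_pow, zero_mul, add_zero, mul_smul_comm]

theorem rd_pow_te_lt (hq : q ≠ 0) (i : Bool) {t : Uplus K q} (ht : t ∈ TT K q i) :
    ∀ (k m : ℕ), k < m → (rd hq i ^ m) (t * e K q i ^ k) = 0 := by
  intro k
  induction k with
  | zero =>
    intro m hm
    obtain ⟨m, rfl⟩ : ∃ m', m = m' + 1 := ⟨m - 1, by omega⟩
    rw [pow_succ, Module.End.mul_apply, pow_zero, mul_one, rd_of_mem hq i ht, map_zero]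
  | succ k ih =>
    intro m hm
    obtain ⟨m, rfl⟩ : ∃ m', m = m' + 1 := ⟨m - 1, by omega⟩
    rw [pow_succ, Module.End.mul_apply, rd_te hq i ht, map_smul, ih m (by omega), smul_zero]

theorem rd_pow_te_eq (hq : q ≠ 0) (hr : ∀ n : ℕ, 0 < n → q ^ n ≠ 1) (i : Bool)
    {t : Uplus K q} (ht : t ∈ TT K q i) (k : ℕ) :
    ∃ c : K, c ≠ 0 ∧ (rd hq i ^ k) (t * e K q i ^ k) = c • t := by
  induction k with
  | zero => exact ⟨1, one_ne_zero, by simp⟩
  | succ k ih =>
    obtain ⟨c, hc, h⟩ := ih
    refine ⟨qn q (k + 1) * c, mul_ne_zero (qn_ne_zero hr (Nat.succ_pos k)) hc, ?_⟩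
    rw [pow_succ, Module.End.mul_apply, rd_te hq i ht, map_smul, h, smul_smul]

theorem mem_of_rd (hq : q ≠ 0) (hr : ∀ n : ℕ, 0 < n → q ^ n ≠ 1) (i : Bool)
    {x : Uplus K q} (hx : rd hq i x = 0) : x ∈ TT K q i := by
  obtain ⟨n, hn⟩ := exists_InV hq i x
  induction n with
  | zero =>
    obtain ⟨t, ht, rfl⟩ := hn
    simp
  | succ n ih =>
    rcases Nat.eq_zero_or_pos n with rfl | hpos
    · obtain ⟨t, ht, rfl⟩ := hn
      simpa using ht 0
    · obtain ⟨t, ht, h⟩ := hn
      obtain ⟨c, hc, h1⟩ := rd_pow_te_eq hq hr i (ht n) n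
      have h2 : (rd hq i ^ n) x = 0 := by
        obtain ⟨m, rfl⟩ : ∃ m', n = m' + 1 := ⟨n - 1, by omega⟩
        rw [pow_succ, Module.End.mul_apply, hx, map_zero]
      rw [h, Finset.sum_range_succ, map_add, h1, map_sum, Finset.sum_eq_zero, zero_add] at h2
      · have h3 : t n = 0 := (smul_eq_zero.1 h2).resolve_left hc
        apply ih
        refine ⟨t, ht, ?_⟩
        rw [h, Finset.sum_range_succ, h3, zero_mul, add_zero]
      · intro k hk
        exact rd_pow_te_lt hq i (ht k) k n (Finset.mem_range.1 hk)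

end Pool.Agent.H918R3.Uq
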