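import Pool.Agent.H918R3.Uq3

/-!
The cone property and integrability.
-/

namespace Pool.Agent.H918R3.Uq

open scoped TensorProduct

variable {K : Type*} [Field K] {q : K}

theorem IsH.EaH (hq : q ≠ 0) (i : Bool) {d : Bool → ℕ} {x : Uplus K q} (hx : IsH d x) :
    IsH (d + dg i) (Ea i x) := by
  have h : Ea i x = e K q i * x + (-wt q i d) • (x * e K q i) := by
    rw [Ea_apply, hx.kapH hq, smul_mul_assoc]
    module
  rw [h]
  refine IsH.add ?_ (IsH.smul _ (hx.mul (IsH.eH i)))
  rw [add_comm]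
  exact (IsH.eH i).mul hx

theorem cone (hq : q ≠ 0) (i : Bool) {t : Uplus K q} (ht : t ∈ TT K q i) :
    ∀ d, comp d t ≠ 0 → d i ≤ 2 * d (!i) := by
  have key : ∀ (d0 : Bool → ℕ) (x : Uplus K q), IsH d0 x → d0 i ≤ 2 * d0 (!i) →
      ∀ d, comp d x ≠ 0 → d i ≤ 2 * d (!i) := by
    intro d0 x hx h d hd
    by_cases h' : d = d0
    · rw [h']; exact h
    · exact absurd (hx.comp_ne h') hd
  have hi : dg (!i) i = 0 := dg_ne (by simp)
  unfold TT at ht
  induction ht using Algebra.adjoin_induction with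
  | mem x hx =>
    simp only [Set.mem_insert_iff, Set.mem_singleton_iff] at hx
    rcases hx with rfl | rfl | rfl
    · exact key _ _ (IsH.eH (!i)) (by simp [hi])
    · exact key _ _ ((IsH.eH (!i)).EaH hq i) (by simp [hi])
    · exact key _ _ (((IsH.eH (!i)).EaH hq i).EaH hq i) (by simp [hi])
  | algebraMap r =>
    rw [Algebra.algebraMap_eq_smul_one]
    exact key _ _ (IsH.one.smul r) (by simp)
  | add x y _ _ hx hy =>
    intro d hd
    by_cases h : comp d x = 0
    · refine hy d fun h' => hd ?_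
      rw [map_add, h, h', add_zero]
    · exact hx d h
  | mul x y _ _ hx hy =>
    intro d hd
    classical
    have h1 : d ∈ (gam (x * y)).coeff.support := Finsupp.mem_support_iff.2 hd
    rw [map_mul] at h1
    have h2 := AddMonoidAlgebra.support_coeff_mul_subset _ _ h1
    rw [Finset.mem_add] at h2
    obtain ⟨a, ha, b, hb, rfl⟩ := h2
    have ha' := hx a (Finsupp.mem_support_iff.1 ha)
    have hb' := hy b (Finsupp.mem_support_iff.1 hb)
    simp only [Pi.add_apply]
    omega

theorem ld_Ea (hq : q ≠ 0) (i : Bool) (x : Uplus K q) :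
    ld hq i (Ea i x) = q ^ 2 • Ea i (ld hq i x) + x - kap i (kap i x) := by
  rw [Ea_apply, Ea_apply, map_sub, ld_mul, ld_mul, ld_e, if_pos rfl, kap_e, cc_self, ld_kap,
    cc_self]
  simp only [one_mul, mul_one, smul_mul_assoc]
  module

theorem wt_add_nsmul (hq : q ≠ 0) (i : Bool) (d : Bool → ℕ) (k : ℕ) :
    wt q i (d + k • dg i) = wt q i d * q ^ (2 * k) := by
  induction k with
  | zero => simp
  | succ k ih =>
    rw [succ_nsmul, ← add_assoc, wt_add_dg hq, ih, cc_self]
    ring

theorem ld_Ea_pow (hq : q ≠ 0) (i : Bool) {d : Bool → ℕ} {x : Uplus K q} (hx : IsH d x)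
    (hl : ld hq i x = 0) (k : ℕ) :
    IsH (d + k • dg i) ((Ea i ^ k) x) ∧ ld hq i ((Ea i ^ (k + 1)) x) =
      (qn q (k + 1) * (1 - wt q i d ^ 2 * q ^ (2 * k))) • (Ea i ^ k) x := by
  induction k with
  | zero =>
    refine ⟨by simpa using hx, ?_⟩
    simp only [pow_zero, Module.End.one_apply, zero_add, pow_one, mul_zero]
    rw [ld_Ea, hl, map_zero, smul_zero, zero_add, hx.kapH hq, map_smul, hx.kapH hq, qn_one]
    module
  | succ k ih =>
    obtain ⟨h1, h2⟩ := ih
    have h3 : IsH (d + (k + 1) • dg i) ((Ea i ^ (k + 1)) x) := by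
      rw [pow_succ', Module.End.mul_apply, succ_nsmul, ← add_assoc]
      exact h1.EaH hq i
    refine ⟨h3, ?_⟩
    rw [pow_succ' _ (k + 1), Module.End.mul_apply, ld_Ea, h2, map_smul,
      ← Module.End.mul_apply, ← pow_succ', h3.kapH hq, map_smul, h3.kapH hq, wt_add_nsmul hq,
      qn_succ (k + 1)]
    have e1 : q ^ 2 * (qn q (k + 1) * (1 - wt q i d ^ 2 * q ^ (2 * k))) +
        1 - (wt q i d * q ^ (2 * (k + 1))) * (wt q i d * q ^ (2 * (k + 1))) =
        (qn q (k + 1) + q ^ (2 * (k + 1))) * (1 - wt q i d ^ 2 * q ^ (2 * (k + 1))) := by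
      have h4 := qn_mul (q := q) (k + 1)
      linear_combination (-1 : K) * h4
    rw [← e1]
    module

theorem integ (hq : q ≠ 0) (hr : ∀ n : ℕ, 0 < n → q ^ n ≠ 1) (i : Bool) {d : Bool → ℕ}
    {x : Uplus K q} (hx : IsH d x) (hx0 : x ≠ 0) (h1 : rd hq i x = 0) (h2 : ld hq i x = 0) :
    d i ≤ d (!i) := by
  by_contra hlt
  push Not at hlt
  have hne : ∀ k, (Ea i ^ k) x ≠ 0 := by
    intro k
    induction k with
    | zero => simpa using hx0
    | succ k ih =>
      intro h0
      have h3 := (ld_Ea_pow hq i hx h2 k).2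
      rw [h0, map_zero] at h3
      rcases smul_eq_zero.1 h3.symm with h4 | h4
      · rcases mul_eq_zero.1 h4 with h5 | h5
        · exact qn_ne_zero hr (Nat.succ_pos k) h5
        · have h6 : q ^ (2 * (2 * ((d i : ℤ) - (d (!i) : ℤ))) + 2 * (k : ℤ)) = 1 := by
            rw [zpow_add₀ hq, mul_comm 2, zpow_mul]
            have : q ^ (2 * (k : ℤ)) = q ^ (2 * k) := by
              rw [← zpow_natCast]; push_cast; rfl
            rw [this]
            have h7 : wt q i d ^ 2 * q ^ (2 * k) = 1 := by linear_combination (-1 : K) * h5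
            rw [← h7]
            congr 1
            rw [← zpow_natCast]
            rfl
          have h8 := zpow_eq hq hr h6
          omega
      · exact ih h4
  have hmem : ∀ k, (Ea i ^ k) x ∈ TT K q i := by
    intro k
    induction k with
    | zero => simpa using mem_of_rd hq hr i h1
    | succ k ih =>
      rw [pow_succ', Module.End.mul_apply]
      exact Ea_mem hq i ih
  have h3 := (ld_Ea_pow hq i hx h2 (2 * d (!i) + 1)).1
  have h4 := cone hq i (hmem (2 * d (!i) + 1)) (d + (2 * d (!i) + 1) • dg i)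
    (by rw [h3.comp_self]; exact hne _)
  simp at h4
  omega

end Pool.Agent.H918R3.Uq
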