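import Pool.Agent.H918R3.Uq4

/-!
The coproduct and the antipode.
-/

namespace Pool.Agent.H918R3.Uq

open scoped TensorProduct

variable {K : Type*} [Field K] {q : K}

theorem serre_tmul {S T : Type*} [Ring S] [Algebra K S] [Ring T] [Algebra K T] {a b : S}
    (h : b * a = a * b) (x y : T) :
    serre q (a ⊗ₜ[K] x) (b ⊗ₜ[K] y) = (a * a * a * b) ⊗ₜ[K] serre q x y := by
  have h1 : a * a * b * a = a * a * a * b := by rw [mul_assoc (a * a), h, ← mul_assoc]
  have h2 : a * b * (a * a) = a * a * a * b := by
    rw [mul_assoc a b, ← mul_assoc b, h, mul_assoc a b a, h]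
    simp only [mul_assoc]
  have h3 : b * (a * a * a) = a * a * a * b := by
    rw [mul_assoc a a a, ← mul_assoc b, h, mul_assoc a b, ← mul_assoc b, h, mul_assoc a b a, h]
    simp only [mul_assoc]
  simp only [serre, pow_succ, pow_zero, one_mul, Algebra.TensorProduct.tmul_mul_tmul, h1, h2, h3,
    TensorProduct.tmul_sub, TensorProduct.tmul_add, TensorProduct.tmul_smul]

theorem serre_tmul_one {S T : Type*} [Ring S] [Algebra K S] [Ring T] [Algebra K T] (x y : S) :
    serre q (x ⊗ₜ[K] (1 : T)) (y ⊗ₜ[K] (1 : T)) = serre q x y ⊗ₜ[K] (1 : T) := by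
  simp only [serre, pow_succ, pow_zero, one_mul, Algebra.TensorProduct.tmul_mul_tmul,
    TensorProduct.sub_tmul, TensorProduct.add_tmul, TensorProduct.smul_tmul']

/-- left multiplications -/
noncomputable def Lm (K : Type*) [Field K] (q : K) (i : Bool) : Module.End K (Uplus K q) :=
  Algebra.lmul K (Uplus K q) (e K q i)

/-- the torus automorphisms as linear maps -/
noncomputable def Km (K : Type*) [Field K] (q : K) (i : Bool) : Module.End K (Uplus K q) :=
  (kap i).toLinearMap

theorem Lm_apply (i : Bool) (x : Uplus K q) : Lm K q i x = e K q i * x := rfl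

theorem Km_apply (i : Bool) (x : Uplus K q) : Km K q i x = kap i x := rfl

theorem serre_Lm (i : Bool) : serre q (Lm K q i) (Lm K q (!i)) = 0 := by
  unfold Lm
  rw [← map_serre, serre_e, map_zero]

theorem Km_Lm (i j : Bool) : Km K q i * Lm K q j = cc q i j • (Lm K q j * Km K q i) := by
  refine LinearMap.ext fun x => ?_
  simp only [Module.End.mul_apply, LinearMap.smul_apply, Lm_apply, Km_apply, map_mul, kap_e,
    smul_mul_assoc]

theorem Km_Km (i j : Bool) : Km K q i * Km K q j = Km K q j * Km K q i := by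
  refine LinearMap.ext fun x => ?_
  exact kap_comm i j x

/-- images of the generators -/
noncomputable def rgen (K : Type*) [Field K] (q : K) (i : Bool) :
    Module.End K (Uplus K q) ⊗[K] Module.End K (Uplus K q) :=
  Lm K q i ⊗ₜ[K] 1 + Km K q i ⊗ₜ[K] Lm K q i

theorem serre_rgen (hq : q ≠ 0) (i : Bool) : serre q (rgen K q i) (rgen K q (!i)) = 0 := by
  unfold rgen
  rw [serre_add hq]
  · rw [serre_tmul (Km_Km (!i) i), serre_Lm, TensorProduct.tmul_zero, add_zero,
      serre_tmul_one, serre_Lm, TensorProduct.zero_tmul]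
  · rw [Algebra.TensorProduct.tmul_mul_tmul, Algebra.TensorProduct.tmul_mul_tmul, Km_Lm,
      TensorProduct.smul_tmul', cc_self, one_mul, mul_one]
  · rw [Algebra.TensorProduct.tmul_mul_tmul, Algebra.TensorProduct.tmul_mul_tmul, Km_Lm,
      TensorProduct.smul_tmul', cc_not, one_mul, mul_one]
  · rw [Algebra.TensorProduct.tmul_mul_tmul, Algebra.TensorProduct.tmul_mul_tmul, Km_Lm,
      TensorProduct.smul_tmul', cc_not', one_mul, mul_one]

/-- The representation on the tensor square. -/
noncomputable def rho (hq : q ≠ 0) :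
    Uplus K q →ₐ[K] Module.End K (Uplus K q ⊗[K] Uplus K q) :=
  (Module.endTensorEndAlgHom (R := K) (S := K) (A := K) (M := Uplus K q) (N := Uplus K q)).comp
    (lift (rgen K q) (serre_rgen hq))

theorem rho_e (hq : q ≠ 0) (i : Bool) (x y : Uplus K q) :
    rho hq (e K q i) (x ⊗ₜ[K] y) = (e K q i * x) ⊗ₜ[K] y + kap i x ⊗ₜ[K] (e K q i * y) := by
  unfold rho
  rw [AlgHom.comp_apply, lift_e, rgen, map_add, Module.endTensorEndAlgHom_apply,
    Module.endTensorEndAlgHom_apply]
  rfl

/-- The coproduct. -/
noncomputable def Del (hq : q ≠ 0) : Uplus K q →ₗ[K] Uplus K q ⊗[K] Uplus K q where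
  toFun x := rho hq x (1 ⊗ₜ 1)
  map_add' x y := by simp
  map_smul' c x := by simp

theorem Del_one (hq : q ≠ 0) : Del hq (1 : Uplus K q) = 1 ⊗ₜ 1 := by
  change rho hq 1 (1 ⊗ₜ 1) = _
  simp

theorem Del_e_mul (hq : q ≠ 0) (i : Bool) (x : Uplus K q) :
    Del hq (e K q i * x) = rho hq (e K q i) (Del hq x) := by
  change rho hq (e K q i * x) (1 ⊗ₜ 1) = _
  rw [map_mul]
  rfl

/-- first summand -/
noncomputable def LT (i : Bool) : Module.End K (Uplus K q ⊗[K] Uplus K q) :=
  TensorProduct.map (Lm K q i) LinearMap.id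

/-- second summand -/
noncomputable def KT (i : Bool) : Module.End K (Uplus K q ⊗[K] Uplus K q) :=
  TensorProduct.map (Km K q i) (Lm K q i)

/-- `kap ⊗ kap` -/
noncomputable def KK (i : Bool) : Module.End K (Uplus K q ⊗[K] Uplus K q) :=
  TensorProduct.map (Km K q i) (Km K q i)

theorem LT_tmul (i : Bool) (x y : Uplus K q) : LT i (x ⊗ₜ[K] y) = (e K q i * x) ⊗ₜ[K] y := rfl

theorem KT_tmul (i : Bool) (x y : Uplus K q) :
    KT i (x ⊗ₜ[K] y) = kap i x ⊗ₜ[K] (e K q i * y) := rfl

theorem KK_tmul (i : Bool) (x y : Uplus K q) : KK i (x ⊗ₜ[K] y) = kap i x ⊗ₜ[K] kap i y := rfl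

theorem rho_eq (hq : q ≠ 0) (i : Bool) (z : Uplus K q ⊗[K] Uplus K q) :
    rho hq (e K q i) z = LT i z + KT i z := by
  induction z using TensorProduct.induction_on with
  | zero => simp
  | tmul x y => rw [rho_e, LT_tmul, KT_tmul]
  | add x y hx hy => simp only [map_add, hx, hy]; abel

/-- `1 ⊗ f` -/
noncomputable def TR (f : Uplus K q →ₗ[K] Uplus K q) : Module.End K (Uplus K q ⊗[K] Uplus K q) :=
  TensorProduct.map LinearMap.id f

theorem TR_tmul (f : Uplus K q →ₗ[K] Uplus K q) (x y : Uplus K q) :
    TR f (x ⊗ₜ[K] y) = x ⊗ₜ[K] f y := rfl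

theorem TR_zero (z : Uplus K q ⊗[K] Uplus K q) : TR 0 z = 0 := by
  induction z using TensorProduct.induction_on with
  | zero => simp
  | tmul x y => rw [TR_tmul, LinearMap.zero_apply, TensorProduct.tmul_zero]
  | add x y hx hy => rw [map_add, hx, hy, add_zero]

theorem TR_comp (f g : Uplus K q →ₗ[K] Uplus K q) (z : Uplus K q ⊗[K] Uplus K q) :
    TR (f ∘ₗ g) z = TR f (TR g z) := by
  induction z using TensorProduct.induction_on with
  | zero => simp
  | tmul x y => rfl
  | add x y hx hy => simp only [map_add, hx, hy]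

theorem TR_add (f g : Uplus K q →ₗ[K] Uplus K q) (z : Uplus K q ⊗[K] Uplus K q) :
    TR (f + g) z = TR f z + TR g z := by
  induction z using TensorProduct.induction_on with
  | zero => simp
  | tmul x y => rw [TR_tmul, TR_tmul, TR_tmul, LinearMap.add_apply, TensorProduct.tmul_add]
  | add x y hx hy => simp only [map_add, hx, hy]; abel

theorem TR_rd (hq : q ≠ 0) (i j : Bool) (z : Uplus K q ⊗[K] Uplus K q) :
    TR (rd hq j) (rho hq (e K q i) z) =
      rho hq (e K q i) (TR (rd hq j) z) + if i = j then KK j z else 0 := by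
  induction z using TensorProduct.induction_on with
  | zero => simp
  | tmul x y =>
    rw [rho_e, map_add, TR_tmul, TR_tmul, TR_tmul, rho_e, rd_mul, rd_e, KK_tmul]
    by_cases h : i = j
    · subst h
      rw [if_pos rfl, if_pos rfl, one_mul, TensorProduct.tmul_add]
      abel
    · rw [if_neg h, if_neg h, zero_mul, add_zero, add_zero]
  | add x y hx hy =>
    simp only [map_add, hx, hy]
    by_cases h : i = j
    · rw [if_pos h, if_pos h, if_pos h]; abel
    · rw [if_neg h, if_neg h, if_neg h]; abel

theorem KK_rho (hq : q ≠ 0) (i j : Bool) (z : Uplus K q ⊗[K] Uplus K q) :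
    KK j (rho hq (e K q i) z) = cc q j i • rho hq (e K q i) (KK j z) := by
  induction z using TensorProduct.induction_on with
  | zero => simp
  | tmul x y =>
    rw [rho_e, map_add, KK_tmul, KK_tmul, KK_tmul, rho_e, map_mul, map_mul, kap_e, kap_comm j i,
      smul_mul_assoc, smul_mul_assoc, smul_add, TensorProduct.tmul_smul,
      ← TensorProduct.smul_tmul']
  | add x y hx hy => simp only [map_add, hx, hy, smul_add]

theorem Del_kap (hq : q ≠ 0) (j : Bool) (x : Uplus K q) :
    Del hq (kap j x) = KK j (Del hq x) := by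
  induction x using ind with
  | h1 => rw [map_one, Del_one, KK_tmul, map_one]
  | hadd x y hx hy => simp only [map_add, hx, hy]
  | hsmul c x hx => simp only [map_smul, hx]
  | hmul i x hx =>
    rw [map_mul, kap_e, smul_mul_assoc, map_smul, Del_e_mul, hx, Del_e_mul, KK_rho]

theorem Del_rd (hq : q ≠ 0) (j : Bool) (x : Uplus K q) :
    TR (rd hq j) (Del hq x) = Del hq (rd hq j x) := by
  induction x using ind with
  | h1 => rw [Del_one, TR_tmul, rd_one, map_zero, TensorProduct.tmul_zero]
  | hadd x y hx hy => simp only [map_add, hx, hy]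
  | hsmul c x hx => simp only [map_smul, hx]
  | hmul i x hx =>
    rw [Del_e_mul, TR_rd, hx, rd_mul, map_add, Del_e_mul, rd_e]
    by_cases h : i = j
    · rw [if_pos h, if_pos h, one_mul, Del_kap]
    · rw [if_neg h, if_neg h, zero_mul, map_zero]

theorem TR_LT (f : Uplus K q →ₗ[K] Uplus K q) (i : Bool) (z : Uplus K q ⊗[K] Uplus K q) :
    TR f (LT i z) = LT i (TR f z) := by
  induction z using TensorProduct.induction_on with
  | zero => simp
  | tmul x y => rfl
  | add x y hx hy => simp only [map_add, hx, hy]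

theorem TR_KT (i : Bool) (p : Bool → ℕ) (z : Uplus K q ⊗[K] Uplus K q) :
    TR (comp (p + dg i)) (KT i z) = KT i (TR (comp p) z) := by
  induction z using TensorProduct.induction_on with
  | zero => simp
  | tmul x y => rw [KT_tmul, TR_tmul, TR_tmul, KT_tmul, comp_e_mul]
  | add x y hx hy => simp only [map_add, hx, hy]

theorem TR_KT_zero (i : Bool) (p : Bool → ℕ) (hp : p i = 0) (z : Uplus K q ⊗[K] Uplus K q) :
    TR (comp p) (KT i z) = 0 := by
  induction z using TensorProduct.induction_on with
  | zero => simp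
  | tmul x y => rw [KT_tmul, TR_tmul, comp_e_mul_zero i p hp, TensorProduct.tmul_zero]
  | add x y hx hy => simp only [map_add, hx, hy, add_zero]

theorem Del_comp_zero (hq : q ≠ 0) (x : Uplus K q) : TR (comp 0) (Del hq x) = x ⊗ₜ 1 := by
  induction x using ind with
  | h1 => rw [Del_one, TR_tmul, comp_one, if_pos rfl]
  | hadd x y hx hy => simp only [map_add, hx, hy, TensorProduct.add_tmul]
  | hsmul c x hx => rw [map_smul, map_smul, hx, TensorProduct.smul_tmul']
  | hmul i x hx =>
    rw [Del_e_mul, rho_eq, map_add, TR_LT, hx, LT_tmul, TR_KT_zero i 0 rfl, add_zero]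

theorem Del_comp (hq : q ≠ 0) (x : Uplus K q) : ∀ d p, (¬ p ≤ d →
    TR (comp p) (Del hq (comp d x)) = 0) ∧ TR (comp d) (Del hq (comp d x)) = 1 ⊗ₜ comp d x := by
  induction x using ind with
  | h1 =>
    intro d p
    rw [comp_one]
    split_ifs with hd
    · subst hd
      constructor
      · intro hp
        rw [Del_one, TR_tmul, comp_one, if_neg, TensorProduct.tmul_zero]
        rintro rfl
        exact hp le_rfl
      · rw [Del_one, TR_tmul, comp_one, if_pos rfl]
    · constructor
      · intro _
        rw [map_zero, map_zero]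
      · rw [map_zero, map_zero, TensorProduct.tmul_zero]
  | hadd x y hx hy =>
    intro d p
    constructor
    · intro hp
      simp only [map_add, (hx d p).1 hp, (hy d p).1 hp, add_zero]
    · simp only [map_add, (hx d p).2, (hy d p).2, TensorProduct.tmul_add]
  | hsmul c x hx =>
    intro d p
    constructor
    · intro hp
      simp only [map_smul, (hx d p).1 hp, smul_zero]
    · simp only [map_smul, (hx d p).2, TensorProduct.tmul_smul]
  | hmul i x hx =>
    intro d p
    by_cases hd : d i = 0
    · rw [comp_e_mul_zero i d hd]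
      constructor
      · intro _
        rw [map_zero, map_zero]
      · rw [map_zero, map_zero, TensorProduct.tmul_zero]
    · obtain ⟨d', rfl⟩ := exists_eq_add i d hd
      rw [comp_e_mul, Del_e_mul]
      constructor
      · intro hp
        have h1 : ¬ p ≤ d' := fun h => hp (h.trans fun j => Nat.le_add_right _ _)
        rw [rho_eq, map_add, TR_LT, (hx d' p).1 h1, map_zero, zero_add]
        by_cases hpi : p i = 0
        · exact TR_KT_zero i p hpi _
        · obtain ⟨p', rfl⟩ := exists_eq_add i p hpi
          rw [TR_KT, (hx d' p').1, map_zero]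
          intro h
          exact hp (add_le_add_left h _)
      · have h1 : ¬ d' + dg i ≤ d' := by
          intro h
          have := h i
          simp at this
        rw [rho_eq, map_add, TR_LT, (hx d' _).1 h1, map_zero, zero_add, TR_KT, (hx d' 0).2,
          KT_tmul, map_one]

/-- every tensor is the sum of its components -/
theorem exists_sum_TR (z : Uplus K q ⊗[K] Uplus K q) : ∃ s : Finset (Bool → ℕ), ∀ s', s ⊆ s' →
    z = ∑ p ∈ s', TR (comp p) z := by
  classical
  induction z using TensorProduct.induction_on with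
  | zero => exact ⟨∅, fun s' _ => by simp⟩
  | tmul x y =>
    refine ⟨(gam y).coeff.support, fun s' hs => ?_⟩
    have h1 : y = ∑ p ∈ s', comp p y := by
      conv_lhs => rw [← sum_comp y, Finsupp.sum]
      refine Finset.sum_subset hs fun p _ hp => ?_
      simpa using hp
    conv_lhs => rw [h1, TensorProduct.tmul_sum]
    rfl
  | add x y hx hy =>
    obtain ⟨s, hs⟩ := hx
    obtain ⟨t, ht⟩ := hy
    refine ⟨s ∪ t, fun s' h => ?_⟩
    simp only [map_add, Finset.sum_add_distrib]
    rw [← hs s' (Finset.union_subset_left h), ← ht s' (Finset.union_subset_right h)]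

end Pool.Agent.H918R3.Uq
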