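import Pool.Agent.H918R3.Uq5

/-!
The antipode, nondegeneracy, and the center.
-/

namespace Pool.Agent.H918R3.Uq

open scoped TensorProduct

variable {K : Type*} [Field K] {q : K}

theorem serre_twist (hq : q ≠ 0) {S : Type*} [Ring S] [Algebra K S] {x y a b : S}
    (h1 : a * x = q ^ 2 • (x * a)) (h2 : a * y = q⁻¹ ^ 2 • (y * a))
    (h3 : b * x = q⁻¹ ^ 2 • (x * b)) (h5 : b * a = a * b) :
    serre q (x * a) (y * b) = serre q x y * (a * a * a * b) := by
  have h1' : ∀ z : S, a * (x * z) = q ^ 2 • (x * (a * z)) := fun z => by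
    rw [← mul_assoc, h1]; simp [mul_assoc]
  have h2' : ∀ z : S, a * (y * z) = q⁻¹ ^ 2 • (y * (a * z)) := fun z => by
    rw [← mul_assoc, h2]; simp [mul_assoc]
  have h3' : ∀ z : S, b * (x * z) = q⁻¹ ^ 2 • (x * (b * z)) := fun z => by
    rw [← mul_assoc, h3]; simp [mul_assoc]
  have h5' : ∀ z : S, b * (a * z) = a * (b * z) := fun z => by
    rw [← mul_assoc, h5]; simp [mul_assoc]
  simp only [serre, pow_succ, pow_zero, one_mul, mul_add, add_mul, sub_mul, mul_assoc, h1, h2, h3,
    h5, h1', h2', h3', h5', mul_smul_comm, smul_mul_assoc, smul_smul, smul_add]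
  match_scalars <;> field_simp

/-- right multiplications -/
noncomputable def Rm (K : Type*) [Field K] (q : K) (i : Bool) : Module.End K (Uplus K q) :=
  LinearMap.mulRight K (e K q i)

theorem Rm_apply (i : Bool) (x : Uplus K q) : Rm K q i x = x * e K q i := rfl

theorem serre_Rm (i : Bool) : serre q (Rm K q i) (Rm K q (!i)) = 0 := by
  refine LinearMap.ext fun x => ?_
  have h : serre q (Rm K q i) (Rm K q (!i)) x = -(x * serre q (e K q i) (e K q (!i))) := by
    simp only [serre, pow_succ, pow_zero, one_mul, LinearMap.sub_apply, LinearMap.add_apply,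
      LinearMap.smul_apply, Module.End.mul_apply, Rm_apply, mul_sub, mul_add, mul_smul_comm,
      ← mul_assoc]
    module
  rw [h, serre_e]
  simp

theorem Km_Rm (i j : Bool) : Km K q i * Rm K q j = cc q i j • (Rm K q j * Km K q i) := by
  refine LinearMap.ext fun x => ?_
  simp only [Module.End.mul_apply, LinearMap.smul_apply, Rm_apply, Km_apply, map_mul, kap_e,
    mul_smul_comm]

/-- The antipode, as a representation. -/
noncomputable def psi (hq : q ≠ 0) : Uplus K q →ₐ[K] Module.End K (Uplus K q) :=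
  lift (fun i => (-1 : K) • (Rm K q i * Km K q i)) (by
    intro i
    rw [serre_smul, serre_twist hq, serre_Rm, zero_mul, smul_zero]
    · rw [Km_Rm, cc_self]
    · rw [Km_Rm, cc_not]
    · rw [Km_Rm, cc_not']
    · exact Km_Km _ _)

/-- The antipode without torus part. -/
noncomputable def Sa (hq : q ≠ 0) : Uplus K q →ₗ[K] Uplus K q where
  toFun x := psi hq x 1
  map_add' x y := by simp
  map_smul' c x := by simp

theorem Sa_one (hq : q ≠ 0) : Sa hq (1 : Uplus K q) = 1 := by
  change psi hq 1 1 = _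
  simp

theorem Sa_e_mul (hq : q ≠ 0) (i : Bool) (x : Uplus K q) :
    Sa hq (e K q i * x) = -(kap i (Sa hq x) * e K q i) := by
  change psi hq (e K q i * x) 1 = _
  rw [map_mul, Module.End.mul_apply]
  unfold psi
  rw [lift_e]
  simp only [LinearMap.smul_apply, Module.End.mul_apply, Rm_apply, Km_apply]
  rw [neg_one_smul]
  rfl

theorem Sa_kap (hq : q ≠ 0) (j : Bool) (x : Uplus K q) : Sa hq (kap j x) = kap j (Sa hq x) := by
  induction x using ind with
  | h1 => rw [map_one, Sa_one, map_one]
  | hadd x y hx hy => simp only [map_add, hx, hy]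
  | hsmul c x hx => simp only [map_smul, hx]
  | hmul i x hx =>
    rw [map_mul, kap_e, smul_mul_assoc, map_smul, Sa_e_mul, hx, Sa_e_mul, map_neg, map_mul, kap_e,
      kap_comm j i, mul_smul_comm, smul_neg]

theorem Sa_mul_e (hq : q ≠ 0) (i : Bool) (x : Uplus K q) :
    Sa hq (x * e K q i) = -(e K q i * kap i (Sa hq x)) := by
  induction x using ind with
  | h1 =>
    have := Sa_e_mul hq i 1
    rw [mul_one, Sa_one, map_one, one_mul] at this
    rw [one_mul, this, Sa_one, map_one, mul_one]
  | hadd x y hx hy => simp only [map_add, hx, hy, add_mul, mul_add]; abel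
  | hsmul c x hx => rw [smul_mul_assoc, map_smul, hx, map_smul, map_smul, mul_smul_comm, smul_neg]
  | hmul j x hx =>
    rw [mul_assoc, Sa_e_mul, hx, Sa_e_mul, map_neg, map_neg, map_mul, map_mul, kap_e, kap_e,
      kap_comm j i, cc_symm j i]
    simp only [smul_mul_assoc, mul_smul_comm, neg_mul, mul_neg, mul_assoc]

theorem Sa_Sa_e_mul (hq : q ≠ 0) (i : Bool) (x : Uplus K q) :
    Sa hq (Sa hq (e K q i * x)) = e K q i * kap i (kap i (Sa hq (Sa hq x))) := by
  rw [Sa_e_mul, map_neg, Sa_mul_e, Sa_kap, neg_neg]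

/-- the exponent of the squared antipode -/
def sg (q : K) (d : Bool → ℕ) : K :=
  q ^ (2 * (((d false : ℤ) - (d true : ℤ)) ^ 2 - ((d false : ℤ) + (d true : ℤ))))

theorem sg_add (hq : q ≠ 0) (i : Bool) (d : Bool → ℕ) :
    sg q (d + dg i) = wt q i d * wt q i d * sg q d := by
  unfold sg wt
  rw [← zpow_add₀ hq, ← zpow_add₀ hq]
  congr 1
  cases i
  · have h : dg false true = 0 := rfl
    simp only [Pi.add_apply, dg_self, h, Bool.not_false]
    push_cast
    ring
  · have h : dg true false = 0 := rfl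
    simp only [Pi.add_apply, dg_self, h, Bool.not_true]
    push_cast
    ring

theorem Sa_Sa (hq : q ≠ 0) (x : Uplus K q) :
    ∀ d, Sa hq (Sa hq (comp d x)) = sg q d • comp d x := by
  induction x using ind with
  | h1 =>
    intro d
    rw [comp_one]
    split_ifs with h
    · subst h; rw [Sa_one, Sa_one]; simp [sg]
    · simp
  | hadd x y hx hy => intro d; simp only [map_add, hx, hy, smul_add]
  | hsmul c x hx => intro d; simp only [map_smul, hx]; rw [smul_comm]
  | hmul i x hx =>
    intro d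
    by_cases hd : d i = 0
    · rw [comp_e_mul_zero i d hd]; simp
    · obtain ⟨d', rfl⟩ := exists_eq_add i d hd
      rw [comp_e_mul, Sa_Sa_e_mul, hx, map_smul, map_smul, kap_comp hq, map_smul, kap_comp hq,
        mul_smul_comm, mul_smul_comm, mul_smul_comm, smul_smul, smul_smul, sg_add hq]
      congr 1
      ring

/-- `x ⊗ y ↦ S(x) y` -/
noncomputable def hh (hq : q ≠ 0) : (Uplus K q ⊗[K] Uplus K q) →ₗ[K] Uplus K q :=
  LinearMap.mul' K (Uplus K q) ∘ₗ TensorProduct.map (Sa hq) LinearMap.id

theorem hh_tmul (hq : q ≠ 0) (x y : Uplus K q) : hh hq (x ⊗ₜ[K] y) = Sa hq x * y := by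
  simp [hh]

theorem hh_rho (hq : q ≠ 0) (i : Bool) (z : Uplus K q ⊗[K] Uplus K q) :
    hh hq (rho hq (e K q i) z) = 0 := by
  induction z using TensorProduct.induction_on with
  | zero => simp
  | tmul x y => rw [rho_e, map_add, hh_tmul, hh_tmul, Sa_e_mul, Sa_kap, neg_mul, mul_assoc,
      neg_add_cancel]
  | add x y hx hy => simp only [map_add, hx, hy, add_zero]

theorem hh_Del (hq : q ≠ 0) (x : Uplus K q) : ∀ d, d ≠ 0 → hh hq (Del hq (comp d x)) = 0 := by
  induction x using ind with
  | h1 => intro d hd; rw [comp_one, if_neg hd, map_zero, map_zero]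
  | hadd x y hx hy => intro d hd; simp only [map_add, hx d hd, hy d hd, add_zero]
  | hsmul c x hx => intro d hd; simp only [map_smul, hx d hd, smul_zero]
  | hmul i x hx =>
    intro d hd
    by_cases hd' : d i = 0
    · rw [comp_e_mul_zero i d hd']; simp
    · obtain ⟨d', rfl⟩ := exists_eq_add i d hd'
      rw [comp_e_mul, Del_e_mul, hh_rho]

/-- Primitive elements are negated by the antipode. -/
theorem Sa_prim (hq : q ≠ 0) {d : Bool → ℕ} {u : Uplus K q} (hu : IsH d u) (hd : d ≠ 0)
    (h : ∀ p, p ≠ 0 → p ≠ d → TR (comp p) (Del hq u) = 0) : Sa hq u = -u := by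
  classical
  obtain ⟨s, hs⟩ := exists_sum_TR (Del hq u)
  have h1 := hs (s ∪ {0, d}) Finset.subset_union_left
  have h2 : ∑ p ∈ s ∪ {0, d}, TR (comp p) (Del hq u) =
      ∑ p ∈ ({0, d} : Finset (Bool → ℕ)), TR (comp p) (Del hq u) := by
    symm
    refine Finset.sum_subset Finset.subset_union_right fun p _ hp => ?_
    simp only [Finset.mem_insert, Finset.mem_singleton, not_or] at hp
    exact h p hp.1 hp.2
  rw [h2, Finset.sum_pair hd.symm, Del_comp_zero] at h1
  have h3 := (Del_comp hq u d 0).2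
  rw [hu.comp_self] at h3
  rw [h3] at h1
  have h4 := hh_Del hq u d hd
  rw [hu.comp_self, h1, map_add, hh_tmul, hh_tmul, Sa_one, mul_one, one_mul] at h4
  exact eq_neg_of_add_eq_zero_left h4

end Pool.Agent.H918R3.Uq
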