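import Pool.Agent.H918R3.Uq6

/-!
Nondegeneracy and the center.
-/

namespace Pool.Agent.H918R3.Uq

open scoped TensorProduct

variable {K : Type*} [Field K] {q : K}

theorem comp_dg_eq (j : Bool) (x : Uplus K q) : ∃ c : K, comp (dg j) x = c • e K q j := by
  induction x using ind with
  | h1 =>
    refine ⟨0, ?_⟩
    rw [comp_one, if_neg, zero_smul]
    intro h
    have := congrFun h j
    simp at this
  | hadd x y hx hy =>
    obtain ⟨a, ha⟩ := hx
    obtain ⟨b, hb⟩ := hy
    exact ⟨a + b, by rw [map_add, ha, hb, add_smul]⟩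
  | hsmul c x hx =>
    obtain ⟨a, ha⟩ := hx
    exact ⟨c * a, by rw [map_smul, ha, smul_smul]⟩
  | hmul i x hx =>
    by_cases h : i = j
    · subst h
      obtain ⟨c, hc⟩ := comp_zero_eq x
      refine ⟨c, ?_⟩
      have := comp_e_mul i 0 x
      rw [zero_add] at this
      rw [this, hc, mul_smul_comm, mul_one]
    · exact ⟨0, by rw [comp_e_mul_zero i _ (dg_ne h), zero_smul]⟩

theorem isH_dg_rd (hq : q ≠ 0) {j : Bool} {x : Uplus K q} (hx : IsH (dg j) x)
    (h : rd hq j x = 0) : x = 0 := by
  obtain ⟨c, hc⟩ := comp_dg_eq j x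
  rw [hx.comp_self] at hc
  rw [hc, map_smul, rd_e, if_pos rfl] at h
  rcases smul_eq_zero.1 h with h | h
  · rw [hc, h, zero_smul]
  · exact absurd h one_ne_zero

theorem factor (f h1 h2 : Uplus K q →ₗ[K] Uplus K q)
    (hker : ∀ x, h1 x = 0 → h2 x = 0 → f x = 0) :
    ∃ g1 g2 : Uplus K q →ₗ[K] Uplus K q, f = g1 ∘ₗ h1 + g2 ∘ₗ h2 := by
  set h : Uplus K q →ₗ[K] Uplus K q × Uplus K q := h1.prod h2 with hh
  have hle : LinearMap.ker h ≤ LinearMap.ker f := by
    intro x hx
    rw [LinearMap.mem_ker] at hx ⊢
    have h3 : h1 x = 0 := congrArg Prod.fst hx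
    have h4 : h2 x = 0 := congrArg Prod.snd hx
    exact hker x h3 h4
  obtain ⟨g, hg⟩ := LinearMap.exists_extend
    (((LinearMap.ker h).liftQ f hle) ∘ₗ h.quotKerEquivRange.symm.toLinearMap)
  have hg' : ∀ x, g (h x) = f x := by
    intro x
    have h3 := DFunLike.congr_fun hg ⟨h x, LinearMap.mem_range_self h x⟩
    simp only [LinearMap.comp_apply, Submodule.subtype_apply, LinearEquiv.coe_coe] at h3
    rw [h3]
    have h4 : h.quotKerEquivRange.symm ⟨h x, LinearMap.mem_range_self h x⟩ =
        (LinearMap.ker h).mkQ x := by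
      rw [LinearEquiv.symm_apply_eq]
      rfl
    rw [h4]
    rfl
  refine ⟨g ∘ₗ LinearMap.inl K _ _, g ∘ₗ LinearMap.inr K _ _, ?_⟩
  refine LinearMap.ext fun x => ?_
  rw [← hg' x]
  simp only [LinearMap.add_apply, LinearMap.comp_apply, LinearMap.inl_apply, LinearMap.inr_apply]
  rw [← map_add]
  simp [hh]

theorem nondeg (hq : q ≠ 0) (hr : ∀ n : ℕ, 0 < n → q ^ n ≠ 1) : ∀ n : ℕ, ∀ d : Bool → ℕ,
    d false + d true = n → d ≠ 0 → ∀ x : Uplus K q, IsH d x → (∀ i, rd hq i x = 0) → x = 0 := by
  intro n
  induction n using Nat.strong_induction_on with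
  | _ n ih =>
    intro d hd hd0 x hx hrd
    by_contra hx0
    have hld : ∀ j, ld hq j x = 0 := by
      intro j
      by_cases hj : d j = 0
      · exact hx.ld_zero hq hj
      · obtain ⟨d', rfl⟩ := exists_eq_add j d hj
        by_cases hd' : d' = 0
        · subst hd'
          rw [zero_add] at hx
          exact absurd (isH_dg_rd hq hx (hrd j)) hx0
        · refine ih (d' false + d' true) ?_ d' rfl hd' _ (hx.ldH hq) ?_
          · rw [← hd]
            cases j <;> simp [dg] <;> omega
          · intro i; rw [rd_ld, hrd i, map_zero]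
    have h1 := integ hq hr false hx hx0 (hrd false) (hld false)
    have h2 := integ hq hr true hx hx0 (hrd true) (hld true)
    simp only [Bool.not_false, Bool.not_true] at h1 h2
    have key : ∀ i p, TR (rd hq i ∘ₗ comp p) (Del hq x) = 0 := by
      intro i p
      by_cases hpi : p i = 0
      · have : rd hq i ∘ₗ comp p = (0 : Uplus K q →ₗ[K] Uplus K q) := by
          refine LinearMap.ext fun y => ?_
          exact (comp_rd hq i y p).2 hpi
        rw [this, TR_zero]
      · obtain ⟨p', rfl⟩ := exists_eq_add i p hpi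
        have : rd hq i ∘ₗ comp (p' + dg i) = comp p' ∘ₗ rd hq i := by
          refine LinearMap.ext fun y => ?_
          exact ((comp_rd hq i y p').1).symm
        rw [this, TR_comp, Del_rd, hrd i, map_zero, map_zero]
    have h3 : ∀ p, p ≠ 0 → p ≠ d → TR (comp p) (Del hq x) = 0 := by
      intro p hp0 hpd
      by_cases hle : p ≤ d
      · have hlt : p false + p true < n := by
          have hf : p false ≤ d false := hle false
          have ht : p true ≤ d true := hle true
          by_contra hcon
          apply hpd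
          funext b
          cases b <;> omega
        obtain ⟨g1, g2, hg⟩ := factor (comp p) (rd hq false ∘ₗ comp p) (rd hq true ∘ₗ comp p) (by
          intro y h1 h2
          refine ih _ hlt p rfl hp0 _ (isH_comp y p) ?_
          intro i
          cases i
          · exact h1
          · exact h2)
        rw [hg, TR_add, TR_comp g1, TR_comp g2, key false, key true, map_zero, map_zero, add_zero]
      · have := (Del_comp hq x d p).1 hle
        rwa [hx.comp_self] at this
    have h4 := Sa_prim hq hx hd0 h3
    have h5 := Sa_Sa hq x d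
    rw [hx.comp_self, h4, map_neg, h4, neg_neg] at h5
    have h6 : sg q d = 1 := by
      by_contra hcon
      have h7 : (sg q d - 1) • x = 0 := by rw [sub_smul, ← h5, one_smul, sub_self]
      rcases smul_eq_zero.1 h7 with h8 | h8
      · exact hcon (sub_eq_zero.1 h8)
      · exact hx0 h8
    have h7 := zpow_eq hq hr h6
    have h8 : d false = d true := le_antisymm h1 h2
    have h9 : d false ≠ 0 := by
      intro h
      apply hd0
      funext b
      cases b
      · exact h
      · rw [← h8]; exact h
    rw [h8] at h7 h9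
    simp at h7
    omega

theorem comp_mul_e (i : Bool) (d : Bool → ℕ) (x : Uplus K q) :
    comp (d + dg i) (x * e K q i) = comp d x * e K q i := by
  change (gam (x * e K q i)).coeff (d + dg i) = _
  rw [map_mul, gam_e, AddMonoidAlgebra.coeff_mul_single_eq_coeff_mul d]
  · rfl
  · intro d' _
    exact add_left_inj _

/-- The center of `U^+` consists of the scalars. -/
theorem center_eq_bot (hq : q ≠ 0) (hr : ∀ n : ℕ, 0 < n → q ^ n ≠ 1) :
    Subalgebra.center K (Uplus K q) = ⊥ := by
  rw [eq_bot_iff]
  intro z hz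
  rw [Subalgebra.mem_center_iff] at hz
  have h1 : ∀ d, d ≠ 0 → comp d z = 0 := by
    intro d hd
    refine nondeg hq hr _ d rfl hd _ (isH_comp z d) ?_
    refine central_rd hq hr (isH_comp z d) ?_
    intro i
    rw [← comp_e_mul, ← comp_mul_e, hz]
  obtain ⟨c, hc⟩ := comp_zero_eq z
  have h2 : z = c • 1 := by
    refine ext_comp fun d => ?_
    rw [map_smul, comp_one]
    split_ifs with h
    · rw [h, hc]
    · rw [h1 d h, smul_zero]
  rw [h2]
  exact Subalgebra.smul_mem _ (one_mem _) c

theorem algebraMap_inj : Function.Injective (algebraMap K (Uplus K q)) :=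
  FaithfulSMul.algebraMap_injective K (Uplus K q)

end Pool.Agent.H918R3.Uq
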