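import Mathlib

/-!
The positive part of the quantum affine algebra of type `A_1^(1)`: two generators `A`, `B`
subject to the cubic q-Serre relations.
-/

namespace Pool.Agent.H918R3.Uq

/-- `x^3 y - [3] x^2 y x + [3] x y x^2 - y x^3`, where `[3] = q^2 + 1 + q^(-2)`. -/
def serre {K : Type*} [Field K] (q : K) {S : Type*} [Ring S] [Algebra K S] (x y : S) : S :=
  x ^ 3 * y - (q ^ 2 + 1 + q⁻¹ ^ 2) • (x ^ 2 * y * x) + (q ^ 2 + 1 + q⁻¹ ^ 2) • (x * y * x ^ 2)
    - y * x ^ 3

/-- The two q-Serre relations on the free algebra with generators `0` (called `A`) and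
`1` (called `A*`). -/
inductive Rel (K : Type*) [Field K] (q : K) :
    FreeAlgebra K (Fin 2) → FreeAlgebra K (Fin 2) → Prop
  | one : Rel K q (serre q (FreeAlgebra.ι K 0) (FreeAlgebra.ι K 1)) 0
  | two : Rel K q (serre q (FreeAlgebra.ι K 1) (FreeAlgebra.ι K 0)) 0

/-- The algebra `U^+`: generators `A`, `A*`, relations the two q-Serre relations. -/
def Uplus (K : Type*) [Field K] (q : K) : Type _ := RingQuot (Rel K q)

noncomputable instance (K : Type*) [Field K] (q : K) : Ring (Uplus K q) :=
  inferInstanceAs (Ring (RingQuot (Rel K q)))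

noncomputable instance (K : Type*) [Field K] (q : K) : Algebra K (Uplus K q) :=
  inferInstanceAs (Algebra K (RingQuot (Rel K q)))

/-- The quotient map from the free algebra on `A` and `A*` onto `U^+`. -/
noncomputable def mk (K : Type*) [Field K] (q : K) : FreeAlgebra K (Fin 2) →ₐ[K] Uplus K q :=
  RingQuot.mkAlgHom K (Rel K q)

end Pool.Agent.H918R3.Uq
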